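import Mathlib

/-!
# Basic operators on `ℓ²`

Helper file for `S05384` (problem `MP_908b95_an`): the unilateral shift `S`, the Volterra
(integration) operator `J` on the Hardy space `ℓ²(ℕ)`, and elementary facts about them.
-/

set_option autoImplicit false

noncomputable section

open scoped InnerProductSpace ComplexConjugate

namespace Pool.Agent.MP908b95

/-- complex `ℓ²(ι)` -/
abbrev L2 (ι : Type) := lp (fun _ : ι => ℂ) 2

/-- The Hardy space, as `ℓ²(ℕ)`. -/
abbrev H := L2 ℕ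

section general
variable {ι : Type} [DecidableEq ι]

/-- basis vectors -/
def e (n : ι) : L2 ι := lp.single 2 n (1 : ℂ)

lemma e_apply (n m : ι) : (e n : L2 ι) m = if m = n then 1 else 0 := by
  unfold e
  by_cases h : m = n
  · subst h; simp
  · simp [h]

lemma inner_e (n : ι) (f : L2 ι) : ⟪e n, f⟫_ℂ = f n := by
  unfold e
  rw [lp.inner_single_left]
  simp

lemma inner_e_right (n : ι) (f : L2 ι) : ⟪f, e n⟫_ℂ = conj (f n) := by
  rw [← inner_conj_symm, inner_e]

lemma orthonormal_e : Orthonormal ℂ (e : ι → L2 ι) := by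
  rw [orthonormal_iff_ite]
  intro i j
  rw [inner_e, e_apply]

lemma ext_e {F : Type} [NormedAddCommGroup F] [NormedSpace ℂ F] {A B : L2 ι →L[ℂ] F}
    (h : ∀ n, A (e n) = B (e n)) : A = B := by
  apply lp.ext_continuousLinearMap (by simp)
  intro i
  ext
  simpa [lp.singleContinuousLinearMap_apply, e] using h i

/-- isometry determined by an orthonormal family -/
def iso {E : Type} [NormedAddCommGroup E] [InnerProductSpace ℂ E] [CompleteSpace E] {v : ι → E}
    (hv : Orthonormal ℂ v) : L2 ι →ₗᵢ[ℂ] E := hv.orthogonalFamily.linearIsometry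

lemma iso_e {E : Type} [NormedAddCommGroup E] [InnerProductSpace ℂ E] [CompleteSpace E] {v : ι → E}
    (hv : Orthonormal ℂ v) (n : ι) : iso hv (e n) = v n := by
  unfold iso e
  rw [OrthogonalFamily.linearIsometry_apply_single]
  simp

/-- coordinate functional -/
def co (n : ι) : L2 ι →L[ℂ] ℂ := lp.evalCLM ℂ (fun _ : ι => ℂ) 2 n

omit [DecidableEq ι] in
@[simp] lemma co_apply (n : ι) (f : L2 ι) : co n f = f n := rfl

end general

lemma orthonormal_shift : Orthonormal ℂ (fun n : ℕ => (e (n + 1) : H)) := by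
  rw [orthonormal_iff_ite]
  intro i j
  rw [inner_e, e_apply]
  simp

/-- the unilateral shift, as a linear isometry -/
def Si : H →ₗᵢ[ℂ] H := iso orthonormal_shift

/-- the unilateral shift -/
def S : H →L[ℂ] H := Si.toContinuousLinearMap

lemma S_e (n : ℕ) : S (e n) = e (n + 1) := iso_e orthonormal_shift n

lemma norm_S_apply (f : H) : ‖S f‖ = ‖f‖ := Si.norm_map f

lemma inner_S (f g : H) : ⟪S f, S g⟫_ℂ = ⟪f, g⟫_ℂ := Si.inner_map_map f g

lemma S_zero (f : H) : (S f) 0 = 0 := by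
  have : (co 0).comp S = 0 := by
    apply ext_e
    intro n
    simp [S_e, e_apply]
  exact congrArg (fun A : H →L[ℂ] ℂ => A f) this

lemma S_succ (f : H) (n : ℕ) : (S f) (n + 1) = f n := by
  have : (co (n + 1)).comp S = co n := by
    apply ext_e
    intro m
    simp [S_e, e_apply]
  exact congrArg (fun A : H →L[ℂ] ℂ => A f) this

lemma S_inj {f g : H} (h : S f = S g) : f = g := Si.injective h

lemma norm_S_le : ‖S‖ ≤ 1 := by
  apply ContinuousLinearMap.opNorm_le_bound _ zero_le_one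
  intro f
  rw [norm_S_apply, one_mul]

/-- the diagonal operator `e n ↦ e n / (n+1)` -/
def D : H →L[ℂ] H :=
  LinearMap.mkContinuous
    { toFun := fun f => ⟨fun n => f n / ((n : ℂ) + 1), (lp.memℓp f).mono' (by
        intro n
        rw [norm_div]
        apply div_le_self (norm_nonneg _)
        have : ((n : ℂ) + 1) = ((n + 1 : ℕ) : ℂ) := by push_cast; ring
        rw [this, Complex.norm_natCast]
        push_cast
        linarith [n.cast_nonneg (α := ℝ)])⟩
      map_add' := by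
        intro f g
        ext n
        exact add_div _ _ _
      map_smul' := by
        intro c f
        ext n
        simp [mul_div_assoc] }
    1 (by
      intro f
      rw [one_mul]
      apply lp.norm_mono (by simp)
      intro n
      show ‖f n / ((n : ℂ) + 1)‖ ≤ ‖f n‖
      rw [norm_div]
      apply div_le_self (norm_nonneg _)
      have : ((n : ℂ) + 1) = ((n + 1 : ℕ) : ℂ) := by push_cast; ring
      rw [this, Complex.norm_natCast]
      push_cast
      linarith [n.cast_nonneg (α := ℝ)])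

lemma D_apply (f : H) (n : ℕ) : (D f) n = f n / ((n : ℂ) + 1) := rfl

/-- the Volterra operator `f ↦ ∫₀ᶻ f` -/
def J : H →L[ℂ] H := S * D

lemma J_zero (f : H) : (J f) 0 = 0 := S_zero _

lemma J_succ (f : H) (n : ℕ) : (J f) (n + 1) = f n / ((n : ℂ) + 1) := by
  unfold J
  rw [mul_apply_eq_comp, S_succ, D_apply]


lemma J_e (n : ℕ) : J (e n) = (1 / ((n : ℂ) + 1)) • e (n + 1) := by
  ext k
  cases k with
  | zero => rw [J_zero]; simp [e_apply]
  | succ k =>
    rw [J_succ]
    simp only [e_apply, lp.coeFn_smul, Pi.smul_apply, smul_eq_mul, add_left_inj]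
    by_cases h : k = n
    · subst h; simp
    · simp [h]

/-! ### the adjoint shift -/

lemma star_S_mul_S : star S * S = 1 := by
  ext1 f
  apply ext_inner_left ℂ
  intro g
  rw [mul_apply_eq_comp, ContinuousLinearMap.star_eq_adjoint,
    ContinuousLinearMap.adjoint_inner_right, inner_S]
  rfl

lemma star_S_S (f : H) : (star S) (S f) = f := by
  have := congrArg (fun A : H →L[ℂ] H => A f) star_S_mul_S
  simpa using this

lemma inner_star_left (A : H →L[ℂ] H) (f g : H) : ⟪(star A) f, g⟫_ℂ = ⟪f, A g⟫_ℂ := by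
  rw [ContinuousLinearMap.star_eq_adjoint, ContinuousLinearMap.adjoint_inner_left]

lemma inner_star_right (A : H →L[ℂ] H) (f g : H) : ⟪f, (star A) g⟫_ℂ = ⟪A f, g⟫_ℂ := by
  rw [ContinuousLinearMap.star_eq_adjoint, ContinuousLinearMap.adjoint_inner_right]

lemma star_S_apply (f : H) (n : ℕ) : ((star S) f) n = f (n + 1) := by
  rw [← inner_e, inner_star_right, S_e, inner_e]

lemma star_S_e0 : (star S) (e 0) = 0 := by
  ext n
  rw [star_S_apply, e_apply]
  simp

lemma star_S_e_succ (n : ℕ) : (star S) (e (n + 1)) = e n := by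
  rw [← S_e, star_S_S]

lemma eq_of_star_S_eq_zero {f : H} (h : (star S) f = 0) : f = f 0 • e 0 := by
  ext n
  cases n with
  | zero => simp [e_apply]
  | succ n =>
    have := star_S_apply f n
    rw [h] at this
    simp [e_apply, ← this]

lemma exists_S_of_zero {f : H} (h : f 0 = 0) : ∃ g, f = S g := by
  refine ⟨(star S) f, ?_⟩
  ext n
  cases n with
  | zero => rw [S_zero, h]
  | succ n => rw [S_succ, star_S_apply]

lemma ap_mul (A B : H →L[ℂ] H) (f : H) : (A * B) f = A (B f) := rfl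

lemma ap_congr {A B : H →L[ℂ] H} (h : A = B) (f : H) : A f = B f := by rw [h]

lemma S_pow_e (n m : ℕ) : (S ^ n) (e m) = e (m + n) := by
  induction n with
  | zero => simp
  | succ n ih =>
    rw [pow_succ', mul_apply_eq_comp, ih, S_e]
    rfl

lemma norm_S_pow (n : ℕ) (f : H) : ‖(S ^ n) f‖ = ‖f‖ := by
  induction n with
  | zero => simp
  | succ n ih => rw [pow_succ', ap_mul, norm_S_apply, ih]

lemma S_pow_add (n : ℕ) (f : H) (k : ℕ) : ((S ^ n) f) (k + n) = f k := by
  induction n with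
  | zero => simp
  | succ n ih =>
    rw [pow_succ', mul_apply_eq_comp, ← add_assoc, S_succ, ih]

lemma eq_of_commute {A B : H →L[ℂ] H} (hA : A * S = S * A) (hB : B * S = S * B)
    (h : A (e 0) = B (e 0)) : A = B := by
  have key : ∀ C : H →L[ℂ] H, C * S = S * C → ∀ n, C (e n) = (S ^ n) (C (e 0)) := by
    intro C hC n
    have h1 : C * S ^ n = S ^ n * C := (show Commute C S from hC).pow_right n
    have h2 := ap_congr h1 (e 0)
    rw [ap_mul, ap_mul, S_pow_e, zero_add] at h2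
    exact h2
  apply ext_e
  intro n
  rw [key A hA, key B hB, h]

/-! ### the growth lemma -/

/-- `J_n = ∑ S^i J S^(n-1-i)` -/
def Jn : ℕ → (H →L[ℂ] H)
  | 0 => 0
  | n + 1 => S * Jn n + J * S ^ n

/-- harmonic numbers -/
def hm (n : ℕ) : ℝ := ∑ i ∈ Finset.range n, 1 / ((i : ℝ) + 1)

lemma hm_succ (n : ℕ) : hm (n + 1) = hm n + 1 / ((n : ℝ) + 1) := by
  unfold hm
  rw [Finset.sum_range_succ]

lemma hm_nonneg (n : ℕ) : 0 ≤ hm n := by
  unfold hm
  apply Finset.sum_nonneg
  intro i _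
  positivity

lemma hm_mono {m n : ℕ} (h : m ≤ n) : hm m ≤ hm n := by
  induction n, h using Nat.le_induction with
  | base => exact le_rfl
  | succ n _ ih =>
    rw [hm_succ]
    have : (0 : ℝ) ≤ 1 / ((n : ℝ) + 1) := by positivity
    linarith

lemma hm_sub_le (k n : ℕ) : hm (k + n) - hm n ≤ hm k := by
  induction k with
  | zero => simp [hm]
  | succ k ih =>
    have h1 : hm (k + 1 + n) = hm (k + n) + 1 / (((k + n : ℕ) : ℝ) + 1) := by
      rw [show k + 1 + n = (k + n) + 1 by ring, hm_succ]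
    rw [h1, hm_succ]
    have : 1 / (((k + n : ℕ) : ℝ) + 1) ≤ 1 / ((k : ℝ) + 1) := by
      apply one_div_le_one_div_of_le
      · positivity
      · push_cast
        linarith [n.cast_nonneg (α := ℝ)]
    linarith

lemma hm_tendsto : Filter.Tendsto hm Filter.atTop Filter.atTop :=
  Real.tendsto_sum_range_one_div_nat_succ_atTop

lemma Jn_add (n : ℕ) (f : H) (k : ℕ) :
    (Jn n f) (k + n) = ((hm (k + n) : ℂ) - (hm k : ℂ)) * f k := by
  induction n with
  | zero => simp [Jn]
  | succ n ih =>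
    have h1 : (Jn (n + 1) f) = S (Jn n f) + J ((S ^ n) f) := rfl
    rw [h1, ← add_assoc, lp.coeFn_add, Pi.add_apply, S_succ, J_succ, ih, S_pow_add, hm_succ]
    push_cast
    ring

lemma S_pow_lt (n : ℕ) (f : H) {k : ℕ} (hk : k < n) : ((S ^ n) f) k = 0 := by
  induction n generalizing k with
  | zero => omega
  | succ n ih =>
    rw [pow_succ', ap_mul]
    cases k with
    | zero => exact S_zero _
    | succ k => rw [S_succ]; exact ih (by omega)

lemma Jn_lt (n : ℕ) (f : H) {k : ℕ} (hk : k < n) : (Jn n f) k = 0 := by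
  induction n generalizing k with
  | zero => omega
  | succ n ih =>
    have h1 : (Jn (n + 1) f) = S (Jn n f) + J ((S ^ n) f) := rfl
    rw [h1, lp.coeFn_add, Pi.add_apply]
    cases k with
    | zero => rw [S_zero, J_zero, add_zero]
    | succ k => rw [S_succ, J_succ, ih (by omega), S_pow_lt _ _ (by omega)]; simp

/-- the key growth lemma -/
lemma growth {Q W P : H →L[ℂ] H} (hW : W * S = S * W) (hP : P * S = S * P)
    (hQ : Q * S = S * Q + J * W - P * J) : W = P := by
  have hPn : ∀ n, P * S ^ n = S ^ n * P := fun n => (show Commute P S from hP).pow_right n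
  have hWn : ∀ n, W * S ^ n = S ^ n * W := fun n => (show Commute W S from hW).pow_right n
  have key : ∀ n, Q * S ^ n = S ^ n * Q + Jn n * W - P * Jn n := by
    intro n
    induction n with
    | zero => simp [Jn]
    | succ n ih =>
      have : Q * S ^ (n + 1) = (S * Q + J * W - P * J) * S ^ n := by
        rw [← hQ, mul_assoc, pow_succ']
      rw [this, sub_mul, add_mul, mul_assoc, ih, mul_assoc J W, hWn]
      have h1 : P * Jn (n + 1) = S * P * Jn n + P * J * S ^ n := by
        rw [← hP]; simp only [Jn]; noncomm_ring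
      rw [h1]
      simp only [Jn, pow_succ']
      noncomm_ring
  apply eq_of_commute hW hP
  ext k
  -- bounded sequence
  have bound : ∀ n, ‖((hm (k + n) : ℂ) - (hm k : ℂ)) * (W (e 0)) k - (hm n : ℂ) * (P (e 0)) k‖
      ≤ 2 * ‖Q‖ := by
    intro n
    have h1 : (Jn n * W - P * Jn n) (e 0) = (Q * S ^ n - S ^ n * Q) (e 0) := by
      rw [key n]; congr 1; abel
    have hJe : Jn n (e 0) = (hm n : ℂ) • e n := by
      ext m
      by_cases hm' : m < n
      · rw [Jn_lt n _ hm', lp.coeFn_smul, Pi.smul_apply, e_apply, if_neg hm'.ne, smul_zero]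
      · obtain ⟨j, rfl⟩ : ∃ j, m = j + n := ⟨m - n, by omega⟩
        rw [Jn_add]
        rcases Nat.eq_zero_or_pos j with hj | hj
        · subst hj
          simp [e_apply, hm]
        · rw [lp.coeFn_smul, Pi.smul_apply, e_apply, e_apply, if_neg hj.ne', if_neg (by omega)]
          simp
    have h2 : ((Jn n * W - P * Jn n) (e 0)) (k + n) =
        ((hm (k + n) : ℂ) - (hm k : ℂ)) * (W (e 0)) k - (hm n : ℂ) * (P (e 0)) k := by
      have h3 : (Jn n * W - P * Jn n) (e 0) = Jn n (W (e 0)) - (hm n : ℂ) • (S ^ n) (P (e 0)) := by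
        have h4 : P (e n) = (S ^ n) (P (e 0)) := by
          have := ap_congr (hPn n) (e 0)
          rw [ap_mul, ap_mul, S_pow_e, zero_add] at this
          exact this
        rw [sub_apply, ap_mul, ap_mul, hJe, map_smul, h4]
      rw [h3, lp.coeFn_sub, Pi.sub_apply, Jn_add, lp.coeFn_smul, Pi.smul_apply, S_pow_add]
      simp
    rw [← h2, h1]
    have nS : ∀ f : H, ‖(S ^ n) f‖ = ‖f‖ := by
      intro f
      exact norm_S_pow n f
    calc ‖((Q * S ^ n - S ^ n * Q) (e 0)) (k + n)‖ ≤ ‖(Q * S ^ n - S ^ n * Q) (e 0)‖ :=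
          lp.norm_apply_le_norm (by simp) _ _
      _ ≤ ‖Q ((S ^ n) (e 0))‖ + ‖(S ^ n) (Q (e 0))‖ := by
          rw [sub_apply, ap_mul, ap_mul]
          exact norm_sub_le _ _
      _ ≤ ‖Q‖ * 1 + ‖Q‖ * 1 := by
          have he : ‖(e 0 : H)‖ = 1 := orthonormal_e.1 0
          apply add_le_add
          · refine (Q.le_opNorm _).trans ?_
            rw [nS, he]
          · rw [nS]
            refine (Q.le_opNorm _).trans ?_
            rw [he]
      _ = 2 * ‖Q‖ := by ring
  by_contra hne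
  set w := (W (e 0)) k
  set p := (P (e 0)) k
  have hd : 0 < ‖w - p‖ := norm_pos_iff.2 (sub_ne_zero.2 hne)
  -- `hm n * ‖w - p‖ ≤ 2 ‖Q‖ + C`
  have hk1 : ∀ n, |hm (k + n) - hm k - hm n| ≤ 2 * hm k := by
    intro n
    have h1 := hm_sub_le k n
    have h2 := hm_mono (show n ≤ k + n by omega)
    have h3 := hm_nonneg k
    rw [abs_le]
    constructor <;> linarith
  have b2 : ∀ n, hm n * ‖w - p‖ ≤ 2 * ‖Q‖ + 2 * hm k * ‖w‖ := by
    intro n
    have h1 : (hm n : ℂ) * (w - p) = (((hm (k + n) : ℂ) - (hm k : ℂ)) * w - (hm n : ℂ) * p)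
        - (((hm (k + n) - hm k - hm n : ℝ) : ℂ)) * w := by
      push_cast; ring
    have h2 : ‖(hm n : ℂ) * (w - p)‖ = hm n * ‖w - p‖ := by
      rw [norm_mul, Complex.norm_real, Real.norm_eq_abs, abs_of_nonneg (hm_nonneg n)]
    rw [← h2, h1]
    refine (norm_sub_le _ _).trans (add_le_add (bound n) ?_)
    rw [norm_mul, Complex.norm_real, Real.norm_eq_abs]
    exact mul_le_mul_of_nonneg_right (hk1 n) (norm_nonneg _)
  obtain ⟨n, hn⟩ := (hm_tendsto.eventually_gt_atTop ((2 * ‖Q‖ + 2 * hm k * ‖w‖) / ‖w - p‖)).exists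
  rw [div_lt_iff₀ hd] at hn
  exact absurd (b2 n) (not_le.2 hn)

/-! ### resolvent and kernel vectors -/

lemma norm_smul_S_lt {z : ℂ} (hz : ‖z‖ < 1) : ‖z • S‖ < 1 := by
  calc ‖z • S‖ ≤ ‖z‖ * ‖S‖ := (norm_smul z S).le
    _ ≤ ‖z‖ * 1 := by gcongr; exact norm_S_le
    _ < 1 := by rwa [mul_one]

/-- `(1 - z S)⁻¹` -/
def Rz (z : ℂ) : H →L[ℂ] H := Ring.inverse (1 - z • S)

lemma isUnit_one_sub {z : ℂ} (hz : ‖z‖ < 1) : IsUnit (1 - z • S : H →L[ℂ] H) :=
  (Units.oneSub (z • S) (norm_smul_S_lt hz)).isUnit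

lemma Rz_mul {z : ℂ} (hz : ‖z‖ < 1) : Rz z * (1 - z • S) = 1 :=
  Ring.inverse_mul_cancel _ (isUnit_one_sub hz)

lemma mul_Rz {z : ℂ} (hz : ‖z‖ < 1) : (1 - z • S) * Rz z = 1 :=
  Ring.mul_inverse_cancel _ (isUnit_one_sub hz)

lemma Rz_comm {z : ℂ} (hz : ‖z‖ < 1) : Rz z * S = S * Rz z := by
  have h : S * (1 - z • S) = (1 - z • S) * S := by
    simp [mul_sub, sub_mul]
  calc Rz z * S = Rz z * S * ((1 - z • S) * Rz z) := by rw [mul_Rz hz, mul_one]
    _ = Rz z * (S * (1 - z • S)) * Rz z := by noncomm_ring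
    _ = (Rz z * (1 - z • S)) * S * Rz z := by rw [h]; noncomm_ring
    _ = S * Rz z := by rw [Rz_mul hz, one_mul]

/-- kernel vector `∑ zⁿ eₙ` -/
def ka (z : ℂ) : H := Rz z (e 0)

lemma ka_eq {z : ℂ} (hz : ‖z‖ < 1) : ka z = e 0 + z • S (ka z) := by
  have h := ap_congr (mul_Rz hz) (e 0)
  have h2 : (1 - z • S) (ka z) = e 0 := h
  rw [sub_apply] at h2
  have h3 : (1 : H →L[ℂ] H) (ka z) = ka z := rfl
  rw [h3] at h2
  have h4 : (z • S) (ka z) = z • S (ka z) := rfl
  rw [h4] at h2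
  rw [← h2]; abel

lemma star_S_ka {z : ℂ} (hz : ‖z‖ < 1) : (star S) (ka z) = z • ka z := by
  conv_lhs => rw [ka_eq hz]
  rw [map_add, map_smul, star_S_S, star_S_e0, zero_add]

lemma norm_ka_le {z : ℂ} (hz : ‖z‖ ≤ 1 / 2) : ‖ka z‖ ≤ 2 := by
  have hz1 : ‖z‖ < 1 := by linarith
  have h := ka_eq hz1
  have h1 : ‖ka z‖ ≤ 1 + ‖z‖ * ‖ka z‖ := by
    conv_lhs => rw [h]
    refine (norm_add_le _ _).trans ?_
    rw [norm_smul, norm_S_apply, show ‖(e 0 : H)‖ = 1 from orthonormal_e.1 0]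
  nlinarith [norm_nonneg (ka z)]

lemma coe_zero_of_ka {f : H} (h : ∀ z : ℂ, z ≠ 0 → ‖z‖ < 1 → ⟪ka z, f⟫_ℂ = 0) : f 0 = 0 := by
  have h1 : ∀ ε : ℝ, 0 < ε → ε ≤ 1 / 2 → ‖f 0‖ ≤ ε * (2 * ‖f‖) := by
    intro ε hε hε2
    have hn : ‖(ε : ℂ)‖ = ε := by rw [Complex.norm_real, Real.norm_eq_abs, abs_of_pos hε]
    have hz0 : (ε : ℂ) ≠ 0 := by exact_mod_cast hε.ne'
    have hz1 : ‖(ε : ℂ)‖ < 1 := by rw [hn]; linarith
    have h2 := h ε hz0 hz1
    have h3 : f 0 = - ⟪(ε : ℂ) • S (ka ε), f⟫_ℂ := by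
      rw [ka_eq hz1, inner_add_left, inner_e] at h2
      linear_combination h2
    rw [h3, norm_neg]
    refine (norm_inner_le_norm _ _).trans ?_
    rw [norm_smul, norm_S_apply, hn, mul_assoc]
    gcongr
    exact norm_ka_le (by rw [hn]; exact hε2)
  by_contra hne
  have hpos : 0 < ‖f 0‖ := norm_pos_iff.2 hne
  have hf : 0 ≤ ‖f‖ := norm_nonneg _
  set ε := min (1 / 2) (‖f 0‖ / (4 * (‖f‖ + 1)))
  have hε : 0 < ε := by
    apply lt_min
    · norm_num
    · positivity
  have h2 := h1 ε hε (min_le_left _ _)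
  have h3 : ε * (2 * ‖f‖) ≤ ‖f 0‖ / (4 * (‖f‖ + 1)) * (2 * ‖f‖) := by
    gcongr
    exact min_le_right _ _
  have h4 : ‖f 0‖ / (4 * (‖f‖ + 1)) * (2 * ‖f‖) ≤ ‖f 0‖ / 2 := by
    rw [div_mul_eq_mul_div, div_le_div_iff₀ (by positivity) (by norm_num)]
    nlinarith
  linarith

lemma eq_zero_of_ka {f : H} (h : ∀ z : ℂ, z ≠ 0 → ‖z‖ < 1 → ⟪ka z, f⟫_ℂ = 0) : f = 0 := by
  have key : ∀ n : ℕ, ∀ f : H, (∀ z : ℂ, z ≠ 0 → ‖z‖ < 1 → ⟪ka z, f⟫_ℂ = 0) → f n = 0 := by
    intro n
    induction n with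
    | zero => intro f hf; exact coe_zero_of_ka hf
    | succ n ih =>
      intro f hf
      obtain ⟨g, rfl⟩ := exists_S_of_zero (coe_zero_of_ka hf)
      rw [S_succ]
      apply ih
      intro z hz0 hz1
      have h1 := hf z hz0 hz1
      rw [← inner_star_left, star_S_ka hz1, inner_smul_left] at h1
      rcases mul_eq_zero.1 h1 with h2 | h2
      · exact absurd ((map_eq_zero _).1 h2) hz0
      · exact h2
  ext n
  rw [key n f h]
  rfl

end Pool.Agent.MP908b95
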