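import Pool.Agent.MP908b95.Basic

/-!
# Upper triangular block operators on `ℓ² ⊕ ℓ²`
-/

set_option autoImplicit false

noncomputable section

open scoped InnerProductSpace ComplexConjugate

namespace Pool.Agent.MP908b95

/-- `H ⊕ H` -/
abbrev K := WithLp 2 (H × H)

def i1 : H →L[ℂ] K :=
  (WithLp.prodContinuousLinearEquiv 2 ℂ H H).symm.toContinuousLinearMap.comp
    (ContinuousLinearMap.inl ℂ H H)
def i2 : H →L[ℂ] K :=
  (WithLp.prodContinuousLinearEquiv 2 ℂ H H).symm.toContinuousLinearMap.comp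
    (ContinuousLinearMap.inr ℂ H H)
def p1 : K →L[ℂ] H := WithLp.fstL 2 ℂ H H
def p2 : K →L[ℂ] H := WithLp.sndL 2 ℂ H H

@[simp] lemma p1_i1 (x : H) : p1 (i1 x) = x := rfl
@[simp] lemma p2_i1 (x : H) : p2 (i1 x) = 0 := rfl
@[simp] lemma p1_i2 (x : H) : p1 (i2 x) = 0 := rfl
@[simp] lemma p2_i2 (x : H) : p2 (i2 x) = x := rfl

lemma K_ext {x y : K} (h1 : p1 x = p1 y) (h2 : p2 x = p2 y) : x = y := by
  apply (WithLp.equiv 2 (H × H)).injective
  exact Prod.ext h1 h2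

lemma i1_p1_add (x : K) : i1 (p1 x) + i2 (p2 x) = x := by
  apply K_ext
  · simp
  · simp

lemma norm_i1 (x : H) : ‖i1 x‖ = ‖x‖ := by
  have h := WithLp.prod_norm_sq_eq_of_L2 (i1 x)
  have h1 : (i1 x).fst = x := rfl
  have h2 : (i1 x).snd = 0 := rfl
  rw [h1, h2, norm_zero] at h
  have h3 : ‖i1 x‖ ^ 2 = ‖x‖ ^ 2 := by rw [h]; ring
  exact (pow_left_inj₀ (norm_nonneg _) (norm_nonneg _) (by norm_num)).1 h3

lemma norm_i2 (x : H) : ‖i2 x‖ = ‖x‖ := by
  have h := WithLp.prod_norm_sq_eq_of_L2 (i2 x)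
  have h1 : (i2 x).fst = 0 := rfl
  have h2 : (i2 x).snd = x := rfl
  rw [h1, h2, norm_zero] at h
  have h3 : ‖i2 x‖ ^ 2 = ‖x‖ ^ 2 := by rw [h]; ring
  exact (pow_left_inj₀ (norm_nonneg _) (norm_nonneg _) (by norm_num)).1 h3

lemma norm_p1_le (x : K) : ‖p1 x‖ ≤ ‖x‖ := WithLp.norm_fst_le H x
lemma norm_p2_le (x : K) : ‖p2 x‖ ≤ ‖x‖ := WithLp.norm_snd_le H x

/-- The operator with block matrix `[[A, B], [0, D]]`. -/
def blk (A B D : H →L[ℂ] H) : K →L[ℂ] K :=
  i1.comp (A.comp p1) + i1.comp (B.comp p2) + i2.comp (D.comp p2)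

lemma p1_blk (A B D : H →L[ℂ] H) (x : K) : p1 (blk A B D x) = A (p1 x) + B (p2 x) := by
  simp [blk]

lemma p2_blk (A B D : H →L[ℂ] H) (x : K) : p2 (blk A B D x) = D (p2 x) := by
  simp [blk]

lemma op_ext {A B : K →L[ℂ] K} (h1 : ∀ x, p1 (A x) = p1 (B x)) (h2 : ∀ x, p2 (A x) = p2 (B x)) :
    A = B := by
  ext1 x
  exact K_ext (h1 x) (h2 x)

lemma blk_mul (A B D A' B' D' : H →L[ℂ] H) :
    blk A B D * blk A' B' D' = blk (A * A') (A * B' + B * D') (D * D') := by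
  apply op_ext
  · intro x
    show p1 (blk A B D (blk A' B' D' x)) = _
    rw [p1_blk, p1_blk, p2_blk, p1_blk]
    simp only [map_add, add_apply, ap_mul]
    abel
  · intro x
    show p2 (blk A B D (blk A' B' D' x)) = _
    rw [p2_blk, p2_blk, p2_blk]
    rfl

lemma blk_one : blk 1 0 1 = 1 := by
  apply op_ext
  · intro x; rw [p1_blk]; simp
  · intro x; rw [p2_blk]; simp

lemma blk_add (A B D A' B' D' : H →L[ℂ] H) :
    blk A B D + blk A' B' D' = blk (A + A') (B + B') (D + D') := by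
  apply op_ext
  · intro x; rw [p1_blk, add_apply, map_add, p1_blk, p1_blk]; simp only [add_apply]; abel
  · intro x; rw [p2_blk, add_apply, map_add, p2_blk, p2_blk]; simp only [add_apply]

lemma blk_sub (A B D A' B' D' : H →L[ℂ] H) :
    blk A B D - blk A' B' D' = blk (A - A') (B - B') (D - D') := by
  apply op_ext
  · intro x; rw [p1_blk, sub_apply, map_sub, p1_blk, p1_blk]; simp only [sub_apply]; abel
  · intro x; rw [p2_blk, sub_apply, map_sub, p2_blk, p2_blk]; simp only [sub_apply]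

lemma blk_smul (c : ℂ) (A B D : H →L[ℂ] H) :
    c • blk A B D = blk (c • A) (c • B) (c • D) := by
  apply op_ext
  · intro x; rw [p1_blk]
    show p1 (c • (blk A B D x)) = c • A (p1 x) + c • B (p2 x)
    rw [map_smul, p1_blk, smul_add]
  · intro x; rw [p2_blk]
    show p2 (c • (blk A B D x)) = c • D (p2 x)
    rw [map_smul, p2_blk]

lemma blk_inj {A B D A' B' D' : H →L[ℂ] H} (h : blk A B D = blk A' B' D') :
    A = A' ∧ B = B' ∧ D = D' := by
  refine ⟨?_, ?_, ?_⟩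
  · ext1 x
    have := congrArg (fun C : K →L[ℂ] K => p1 (C (i1 x))) h
    simpa [p1_blk] using this
  · ext1 x
    have := congrArg (fun C : K →L[ℂ] K => p1 (C (i2 x))) h
    simpa [p1_blk] using this
  · ext1 x
    have := congrArg (fun C : K →L[ℂ] K => p2 (C (i2 x))) h
    simpa [p2_blk] using this

lemma norm_blk_le (A B D : H →L[ℂ] H) : ‖blk A B D‖ ≤ ‖A‖ + ‖B‖ + ‖D‖ := by
  apply ContinuousLinearMap.opNorm_le_bound _ (by positivity)
  intro x
  have h : blk A B D x = i1 (A (p1 x)) + i1 (B (p2 x)) + i2 (D (p2 x)) := rfl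
  rw [h]
  calc ‖i1 (A (p1 x)) + i1 (B (p2 x)) + i2 (D (p2 x))‖
      ≤ ‖i1 (A (p1 x))‖ + ‖i1 (B (p2 x))‖ + ‖i2 (D (p2 x))‖ := norm_add₃_le
    _ = ‖A (p1 x)‖ + ‖B (p2 x)‖ + ‖D (p2 x)‖ := by rw [norm_i1, norm_i1, norm_i2]
    _ ≤ ‖A‖ * ‖x‖ + ‖B‖ * ‖x‖ + ‖D‖ * ‖x‖ := by
        gcongr
        · exact A.le_opNorm_of_le (norm_p1_le x)
        · exact B.le_opNorm_of_le (norm_p2_le x)
        · exact D.le_opNorm_of_le (norm_p2_le x)
    _ = (‖A‖ + ‖B‖ + ‖D‖) * ‖x‖ := by ring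

/-- units of block form -/
lemma blk_unit {A B D A' D' : H →L[ℂ] H} (h1 : A * A' = 1) (h2 : A' * A = 1) (h3 : D * D' = 1)
    (h4 : D' * D = 1) :
    blk A B D * blk A' (-(A' * B * D')) D' = 1 ∧ blk A' (-(A' * B * D')) D' * blk A B D = 1 := by
  constructor
  · rw [blk_mul, h1, h3]
    have : A * -(A' * B * D') + B * D' = 0 := by
      have : A * -(A' * B * D') = -((A * A') * B * D') := by noncomm_ring
      rw [this, h1, one_mul, neg_add_cancel]
    rw [this, blk_one]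
  · rw [blk_mul, h2, h4]
    have : A' * B + -(A' * B * D') * D = 0 := by
      have : -(A' * B * D') * D = -(A' * B * (D' * D)) := by noncomm_ring
      rw [this, h4, mul_one, add_neg_cancel]
    rw [this, blk_one]

/-- The counterexample operator. -/
def T : K →L[ℂ] K := blk S J S

/-- relation `φ(T) W = W T`, cleared of denominators. -/
def Rel (E a : ℂ) (W : K →L[ℂ] K) : Prop :=
  E • ((T - a • (1 : K →L[ℂ] K)) * W) = (1 - conj a • T) * (W * T)

lemma T_sub (a : ℂ) : T - a • (1 : K →L[ℂ] K) = blk (S - a • 1) J (S - a • 1) := by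
  unfold T
  rw [← blk_one, blk_smul, blk_sub]
  simp

lemma one_sub_T (b : ℂ) : 1 - b • T = blk (1 - b • S) (-(b • J)) (1 - b • S) := by
  unfold T
  rw [← blk_one, blk_smul, blk_sub]
  simp

lemma rel_blk_iff (E a : ℂ) (A B D : H →L[ℂ] H) :
    Rel E a (blk A B D) ↔
      (E • ((S - a • 1) * A) = (1 - conj a • S) * (A * S) ∧
      E • ((S - a • 1) * B + J * D) =
        (1 - conj a • S) * (A * J + B * S) - conj a • (J * (D * S)) ∧
      E • ((S - a • 1) * D) = (1 - conj a • S) * (D * S)) := by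
  unfold Rel
  rw [T_sub, one_sub_T]
  unfold T
  rw [blk_mul, blk_mul, blk_mul, blk_smul]
  constructor
  · intro h
    obtain ⟨h1, h2, h3⟩ := blk_inj h
    refine ⟨h1, ?_, h3⟩
    rw [h2, neg_mul, smul_mul_assoc, ← sub_eq_add_neg]
  · rintro ⟨h1, h2, h3⟩
    rw [h1, h2, h3, neg_mul, smul_mul_assoc, ← sub_eq_add_neg]

end Pool.Agent.MP908b95
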