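import Pool.Agent.MP908b95.Block

/-!
# `T` is not similar to a homogeneous operator
-/

set_option autoImplicit false

noncomputable section

open scoped InnerProductSpace ComplexConjugate

namespace Pool.Agent.MP908b95

lemma T_i1 (x : H) : T (i1 x) = i1 (S x) := by
  apply K_ext
  · unfold T; rw [p1_blk]; simp
  · unfold T; rw [p2_blk]; simp

lemma T_i2 (x : H) : T (i2 x) = i1 (J x) + i2 (S x) := by
  apply K_ext
  · unfold T; rw [p1_blk]; simp
  · unfold T; rw [p2_blk]; simp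

lemma p1_T (z : K) : p1 (T z) = S (p1 z) + J (p2 z) := by unfold T; rw [p1_blk]
lemma p2_T (z : K) : p2 (T z) = S (p2 z) := by unfold T; rw [p2_blk]

/-- The commutant of `T` consists of operators `[[P, Q], [0, P]]`. -/
lemma commutant {C : K →L[ℂ] K} (hC : C * T = T * C) :
    ∃ P Q : H →L[ℂ] H, C = blk P Q P ∧ P * S = S * P := by
  set C11 : H →L[ℂ] H := p1.comp (C.comp i1) with hC11
  set C12 : H →L[ℂ] H := p1.comp (C.comp i2) with hC12
  set C21 : H →L[ℂ] H := p2.comp (C.comp i1) with hC21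
  set C22 : H →L[ℂ] H := p2.comp (C.comp i2) with hC22
  have hCT : ∀ z, C (T z) = T (C z) := fun z => by
    have := congrArg (fun A : K →L[ℂ] K => A z) hC
    exact this
  have r21 : C21 * S = S * C21 := by
    ext1 x
    show p2 (C (i1 (S x))) = S (p2 (C (i1 x)))
    rw [← T_i1, hCT, p2_T]
  have r11 : C11 * S = S * C11 + J * C21 - 0 * J := by
    ext1 x
    show p1 (C (i1 (S x))) = S (p1 (C (i1 x))) + J (p2 (C (i1 x))) - 0
    rw [← T_i1, hCT, p1_T, sub_zero]
  have h21 : C21 = 0 := growth r21 (by simp) r11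
  have r11' : C11 * S = S * C11 := by
    rw [r11, h21]; simp
  have r22 : C22 * S = S * C22 := by
    ext1 x
    show p2 (C (i2 (S x))) = S (p2 (C (i2 x)))
    have h1 : i2 (S x) = T (i2 x) - i1 (J x) := by rw [T_i2]; abel
    have h2 : p2 (C (i1 (J x))) = 0 := by
      have := ap_congr h21 (J x)
      exact this
    rw [h1, map_sub, map_sub, hCT, p2_T, h2, sub_zero]
  have r12 : C12 * S = S * C12 + J * C22 - C11 * J := by
    ext1 x
    show p1 (C (i2 (S x))) = S (p1 (C (i2 x))) + J (p2 (C (i2 x))) - p1 (C (i1 (J x)))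
    have h1 : i2 (S x) = T (i2 x) - i1 (J x) := by rw [T_i2]; abel
    rw [h1, map_sub, map_sub, hCT, p1_T]
  have h22 : C22 = C11 := growth r22 r11' r12
  refine ⟨C11, C12, ?_, r11'⟩
  apply op_ext
  · intro z
    rw [p1_blk]
    show p1 (C z) = p1 (C (i1 (p1 z))) + p1 (C (i2 (p2 z)))
    rw [← map_add, ← map_add, i1_p1_add]
  · intro z
    rw [p2_blk, ← h22]
    show p2 (C z) = p2 (C (i2 (p2 z)))
    have h2 : p2 (C (i1 (p1 z))) = 0 := by
      have := ap_congr h21 (p1 z)
      exact this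
    conv_lhs => rw [← i1_p1_add z, map_add, map_add, h2, zero_add]

lemma apply_zero_coord {A : H →L[ℂ] H} {E c : ℂ} {h : H} (hAS : A * S = E • (S * A))
    (hh : A h = c • h) (h0 : h 0 ≠ 0) (x : H) : (A x) 0 = c * x 0 := by
  have h1 : (x - (x 0 / h 0) • h) 0 = 0 := by
    rw [lp.coeFn_sub, Pi.sub_apply, lp.coeFn_smul, Pi.smul_apply, smul_eq_mul]
    field_simp
    ring
  obtain ⟨g, hg⟩ := exists_S_of_zero h1
  have h2 : x = (x 0 / h 0) • h + S g := by rw [← hg]; abel
  have h3 : A (S g) = E • S (A g) := ap_congr hAS g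
  rw [h2, map_add, map_smul, hh, h3, lp.coeFn_add, Pi.add_apply, lp.coeFn_smul, Pi.smul_apply,
    lp.coeFn_smul, Pi.smul_apply, lp.coeFn_smul, Pi.smul_apply, S_zero, lp.coeFn_add, Pi.add_apply,
    lp.coeFn_smul, Pi.smul_apply, S_zero]
  simp only [smul_eq_mul, mul_zero, add_zero]
  ring

lemma eig_zero {A : H →L[ℂ] H} {E c : ℂ} {h w : H} (hE : ∀ n : ℕ, 0 < n → E ^ n ≠ 1)
    (hAS : A * S = E • (S * A)) (hc : c ≠ 0)
    (hh : A h = c • h) (h0 : h 0 ≠ 0) (hE0 : E ≠ 0) (hw : A w = (E⁻¹ * c) • w) : w = 0 := by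
  have key : ∀ k : ℕ, ∀ n : ℕ, ∀ w : H, A w = ((E⁻¹) ^ (n + 1) * c) • w → w k = 0 := by
    have base : ∀ n : ℕ, ∀ w : H, A w = ((E⁻¹) ^ (n + 1) * c) • w → w 0 = 0 := by
      intro n w hw
      have h1 := apply_zero_coord hAS hh h0 w
      rw [hw, lp.coeFn_smul, Pi.smul_apply, smul_eq_mul] at h1
      by_contra hne
      have h2 : (E⁻¹) ^ (n + 1) = 1 := by
        have h3 : (E⁻¹) ^ (n + 1) * (c * w 0) = 1 * (c * w 0) := by
          rw [one_mul, ← mul_assoc, h1]
        exact mul_right_cancel₀ (mul_ne_zero hc hne) h3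
      apply hE (n + 1) (by omega)
      rw [inv_pow] at h2
      exact inv_eq_one.1 h2
    intro k
    induction k with
    | zero => exact base
    | succ k ih =>
      intro n w hw
      obtain ⟨g, rfl⟩ := exists_S_of_zero (base n w hw)
      rw [S_succ]
      apply ih (n + 1) g
      have h3 : A (S g) = E • S (A g) := ap_congr hAS g
      apply S_inj
      rw [map_smul]
      have h4 : E • S (A g) = E • ((E⁻¹ ^ (n + 1 + 1) * c) • S g) := by
        rw [← h3, hw, smul_smul]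
        congr 1
        rw [pow_succ (E⁻¹) (n + 1)]
        field_simp
      exact smul_right_injective H hE0 h4
  ext k
  rw [key k 0 w (by simpa using hw)]
  rfl

/-- Step 3: the zeroth coordinate of `J_Y x` vanishes. -/
lemma step3 {G Gi A A' JY : H →L[ℂ] H} {E : ℂ} (hG1 : G * Gi = 1) (hG2 : Gi * G = 1)
    (h0 : (Gi (e 0)) 0 ≠ 0)
    (hA1 : A * A' = 1) (hA2 : A' * A = 1) (hAG : star A * G * A = G)
    (hE : ∀ n : ℕ, 0 < n → E ^ n ≠ 1) (hE1 : conj E * E = 1)
    (hAS : A * S = E • (S * A)) (hJ : E • (JY * A) = A * JY) (x : H) :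
    (JY x) 0 = 0 := by
  have hE0 : E ≠ 0 := fun h => by rw [h] at hE1; simp at hE1
  have hEi : conj E = E⁻¹ := eq_inv_of_mul_eq_one_left hE1
  have hEc0 : conj E ≠ 0 := by rw [hEi]; exact inv_ne_zero hE0
  have hsA1 : star A' * star A = 1 := by rw [← star_mul, hA1, star_one]
  have hsA2 : star A * star A' = 1 := by rw [← star_mul, hA2, star_one]
  -- relation for `A'`
  have hSA' : S * A' = E • (A' * S) := by
    calc S * A' = (A' * A) * S * A' := by rw [hA2, one_mul]
      _ = A' * (A * S) * A' := by noncomm_ring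
      _ = E • (A' * S * (A * A')) := by
          rw [hAS, mul_smul_comm, smul_mul_assoc]; simp only [mul_assoc]
      _ = E • (A' * S) := by rw [hA1, mul_one]
  have hSA's : star A' * star S = conj E • (star S * star A') := by
    have := congrArg star hSA'
    rw [star_mul, star_smul, star_mul] at this
    exact this
  -- `star A' (e 0)` is a multiple of `e 0`
  have hk : (star S) ((star A') (e 0)) = 0 := by
    have h1 := ap_congr hSA's (e 0)
    have h2 : conj E • (star S) ((star A') (e 0)) = 0 := by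
      have h3 : (star A' * star S) (e 0) = 0 := by
        rw [ap_mul, star_S_e0, map_zero]
      rw [h3] at h1
      exact h1.symm
    exact (smul_eq_zero.1 h2).resolve_left hEc0
  set c := ((star A') (e 0)) 0 with hc
  have hc1 : (star A') (e 0) = c • e 0 := eq_of_star_S_eq_zero hk
  have hG3 : star A' * G = G * A := by
    calc star A' * G = star A' * (star A * G * A) := by rw [hAG]
      _ = (star A' * star A) * G * A := by noncomm_ring
      _ = G * A := by rw [hsA1, one_mul]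
  have hG4 : star A * G = G * A' := by
    calc star A * G = star A * G * (A * A') := by rw [hA1, mul_one]
      _ = (star A * G * A) * A' := by noncomm_ring
      _ = G * A' := by rw [hAG]
  have hGG : ∀ y, G (Gi y) = y := fun y => ap_congr hG1 y
  have hGG' : ∀ y, Gi (G y) = y := fun y => ap_congr hG2 y
  have hG3' : ∀ y, (star A') (G y) = G (A y) := fun y => ap_congr hG3 y
  have hG4' : ∀ y, (star A) (G y) = G (A' y) := fun y => ap_congr hG4 y
  have hAA' : ∀ y, A (A' y) = y := fun y => ap_congr hA1 y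
  have hA'A : ∀ y, A' (A y) = y := fun y => ap_congr hA2 y
  set h := Gi (e 0) with hh
  have hAh : A h = c • h := by
    have h1 : G (A h) = c • e 0 := by
      rw [← hG3', hh, hGG, hc1]
    calc A h = Gi (G (A h)) := (hGG' _).symm
      _ = c • h := by rw [h1, map_smul]
  have hc0 : c ≠ 0 := by
    intro hc0
    rw [hc0, zero_smul] at hAh
    have h1 := hA'A h
    rw [hAh, map_zero] at h1
    rw [← h1] at h0
    exact h0 rfl
  -- `u = star JY (e 0)`
  have hJ2 : JY = E • (A' * JY * A) := by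
    calc JY = (A' * A) * JY := by rw [hA2, one_mul]
      _ = A' * (A * JY) := by noncomm_ring
      _ = E • (A' * JY * A) := by rw [← hJ, mul_smul_comm]; congr 1
  have hJ3 : star JY = conj E • (star A * star JY * star A') := by
    have := congrArg star hJ2
    rw [star_smul, star_mul, star_mul, ← mul_assoc] at this
    exact this
  set u := (star JY) (e 0) with hu
  have hu1 : u = (conj E * c) • (star A) u := by
    have h1 := ap_congr hJ3 (e 0)
    have h2 : (conj E • (star A * star JY * star A')) (e 0)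
        = conj E • (star A) ((star JY) ((star A') (e 0))) := rfl
    rw [h2, hc1, map_smul, map_smul, smul_smul] at h1
    exact h1
  set w := Gi u with hw
  have hGw : G w = u := hGG u
  have hAw : A w = (E⁻¹ * c) • w := by
    have h1 : w = (conj E * c) • A' w := by
      calc w = Gi u := rfl
        _ = Gi ((conj E * c) • (star A) u) := by rw [← hu1]
        _ = (conj E * c) • Gi ((star A) (G w)) := by rw [map_smul, hGw]
        _ = (conj E * c) • A' w := by rw [hG4', hGG']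
    calc A w = A ((conj E * c) • A' w) := by rw [← h1]
      _ = (E⁻¹ * c) • w := by rw [map_smul, hAA', hEi]
  have hw0 : w = 0 := eig_zero hE hAS hc0 hAh h0 hE0 hAw
  have hu0 : u = 0 := by rw [← hGw, hw0, map_zero]
  rw [← inner_e, ← inner_star_left, ← hu, hu0, inner_zero_left]

/-- Step 4: `J_Y x` vanishes at every point of the disc. -/
lemma step4 {A A' JY : H →L[ℂ] H} {a : ℂ} (ha : ‖a‖ < 1)
    (hA1 : A * A' = 1)
    (hrel : (S - a • 1) * A = (1 - conj a • S) * (A * S))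
    (hJ : JY * A = (1 - conj a • S) * (A * JY) - conj a • (JY * (A * S)))
    (h0 : ∀ x, (JY x) 0 = 0) (x : H) :
    ⟪ka (conj a), JY x⟫_ℂ = 0 := by
  have hca : ‖conj a‖ < 1 := by rwa [RCLike.norm_conj]
  set k := ka (conj a) with hk
  have hSk : (star S) k = conj a • k := star_S_ka hca
  have hSk' : ∀ y, ⟪k, S y⟫_ℂ = a * ⟪k, y⟫_ℂ := by
    intro y
    rw [← inner_star_left, hSk, inner_smul_left]
    simp
  have h1 : (1 - conj a * a) ≠ 0 := by
    intro h
    have h2 : conj a * a = 1 := by linear_combination -h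
    rw [← Complex.normSq_eq_conj_mul_self] at h2
    have h3 : Complex.normSq a = 1 := by exact_mod_cast h2
    rw [Complex.normSq_eq_norm_sq] at h3
    nlinarith [norm_nonneg a]
  have hA1' : ∀ y, A (A' y) = y := fun y => ap_congr hA1 y
  have hk1 : ∀ y, ⟪k, (1 - conj a • S : H →L[ℂ] H) y⟫_ℂ = (1 - conj a * a) * ⟪k, y⟫_ℂ := by
    intro y
    have : (1 - conj a • S : H →L[ℂ] H) y = y - conj a • S y := rfl
    rw [this, inner_sub_right, inner_smul_right, hSk']
    ring
  have hk2 : ∀ y, ⟪k, (S - a • 1 : H →L[ℂ] H) y⟫_ℂ = 0 := by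
    intro y
    have : (S - a • 1 : H →L[ℂ] H) y = S y - a • y := rfl
    rw [this, inner_sub_right, inner_smul_right, hSk']
    ring
  -- `star A k` is a multiple of `e 0`
  have h2 : ∀ y, ⟪(star A) k, S y⟫_ℂ = 0 := by
    intro y
    have h3 := ap_congr hrel y
    have h4 := hk2 (A y)
    have h5 : (S - a • 1 : H →L[ℂ] H) (A y) = (1 - conj a • S : H →L[ℂ] H) (A (S y)) := h3
    rw [h5, hk1] at h4
    rw [inner_star_left]
    exact (mul_eq_zero.1 h4).resolve_left h1
  have h3 : (star S) ((star A) k) = 0 := by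
    have : ⟪(star S) ((star A) k), (star S) ((star A) k)⟫_ℂ = 0 := by
      rw [inner_star_left]; exact h2 _
    exact inner_self_eq_zero.1 this
  have h4 := eq_of_star_S_eq_zero h3
  have h5 : ∀ y, ⟪k, A (JY y)⟫_ℂ = 0 := by
    intro y
    rw [← inner_star_left, h4, inner_smul_left, inner_e, h0, mul_zero]
  have h6 : ∀ y, ⟪k, JY (A (y + conj a • S y))⟫_ℂ = 0 := by
    intro y
    have h7 := ap_congr hJ y
    have h8 : JY (A y) = (1 - conj a • S : H →L[ℂ] H) (A (JY y)) - conj a • JY (A (S y)) := h7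
    rw [map_add, map_add, map_smul, map_smul, h8, sub_add_cancel, hk1, h5, mul_zero]
  have hz : ‖-conj a‖ < 1 := by rwa [norm_neg]
  have h7 := h6 (Rz (-conj a) (A' x))
  have h8 : Rz (-conj a) (A' x) + conj a • S (Rz (-conj a) (A' x)) = A' x := by
    have h9 := ap_congr (mul_Rz hz) (A' x)
    have h10 : ((1 - (-conj a) • S) * Rz (-conj a)) (A' x)
        = Rz (-conj a) (A' x) - (-conj a) • S (Rz (-conj a) (A' x)) := rfl
    rw [h10] at h9
    rw [neg_smul, sub_neg_eq_add] at h9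
    exact h9
  rw [h8, hA1'] at h7
  exact h7

lemma isUnit_one_sub_T {a : ℂ} (ha : ‖a‖ < 1) : IsUnit (1 - conj a • T) := by
  have hca : ‖conj a‖ < 1 := by rwa [RCLike.norm_conj]
  rw [one_sub_T]
  obtain ⟨h1, h2⟩ := blk_unit (B := -(conj a • J)) (mul_Rz hca) (Rz_mul hca) (mul_Rz hca)
    (Rz_mul hca)
  exact ⟨⟨_, _, h1, h2⟩, rfl⟩

lemma comm_of_rel {E a : ℂ} (ha : ‖a‖ < 1) {Γ Γ' W W' : K →L[ℂ] K} (h1 : Γ * Γ' = 1)
    (h2 : Γ' * Γ = 1) (h3 : W * W' = 1) (h4 : W' * W = 1) (hΓ : Rel E a Γ) (hW : Rel E a W) :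
    (Γ' * W) * T = T * (Γ' * W) := by
  have hu := isUnit_one_sub_T ha
  have e1 : (1 - conj a • T) * (Γ * T * Γ') = E • (T - a • (1 : K →L[ℂ] K)) := by
    calc (1 - conj a • T) * (Γ * T * Γ') = ((1 - conj a • T) * (Γ * T)) * Γ' := by
          simp only [mul_assoc]
      _ = (E • ((T - a • (1 : K →L[ℂ] K)) * Γ)) * Γ' := by rw [← hΓ]
      _ = E • ((T - a • (1 : K →L[ℂ] K)) * (Γ * Γ')) := by
          rw [smul_mul_assoc, mul_assoc]
      _ = _ := by rw [h1, mul_one]
  have e2 : (1 - conj a • T) * (W * T * W') = E • (T - a • (1 : K →L[ℂ] K)) := by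
    calc (1 - conj a • T) * (W * T * W') = ((1 - conj a • T) * (W * T)) * W' := by
          simp only [mul_assoc]
      _ = (E • ((T - a • (1 : K →L[ℂ] K)) * W)) * W' := by rw [← hW]
      _ = E • ((T - a • (1 : K →L[ℂ] K)) * (W * W')) := by
          rw [smul_mul_assoc, mul_assoc]
      _ = _ := by rw [h3, mul_one]
  have e3 : Γ * T * Γ' = W * T * W' := by
    apply hu.mul_left_cancel
    rw [e1, e2]
  calc (Γ' * W) * T = Γ' * (W * T * W') * W := by
        simp only [mul_assoc]; rw [h4, mul_one]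
    _ = Γ' * (Γ * T * Γ') * W := by rw [e3]
    _ = (Γ' * Γ) * T * (Γ' * W) := by simp only [mul_assoc]
    _ = T * (Γ' * W) := by rw [h2, one_mul]

/-- Structure of intertwiners -/
lemma intertwiner {E a : ℂ} (ha : ‖a‖ < 1) {R R' Q : H →L[ℂ] H} (hR1 : R * R' = 1)
    (hR2 : R' * R = 1) (hΓ : Rel E a (blk R Q R)) {W W' : K →L[ℂ] K} (h3 : W * W' = 1)
    (h4 : W' * W = 1) (hW : Rel E a W) :
    ∃ A B A' : H →L[ℂ] H, W = blk A B A ∧ A * A' = 1 ∧ A' * A = 1 := by
  obtain ⟨g1, g2⟩ := blk_unit (B := Q) hR1 hR2 hR1 hR2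
  set Γ := blk R Q R
  set Γ' := blk R' (-(R' * Q * R')) R'
  have hC := comm_of_rel ha g1 g2 h3 h4 hΓ hW
  obtain ⟨P, Q1, hP, hPS⟩ := commutant hC
  have hC' : (W' * Γ) * T = T * (W' * Γ) := comm_of_rel ha h3 h4 g1 g2 hW hΓ
  obtain ⟨P', Q1', hP', hPS'⟩ := commutant hC'
  have i1 : (Γ' * W) * (W' * Γ) = 1 := by
    calc (Γ' * W) * (W' * Γ) = Γ' * (W * W') * Γ := by simp only [mul_assoc]
      _ = 1 := by rw [h3, mul_one, g2]
  have i2 : (W' * Γ) * (Γ' * W) = 1 := by
    calc (W' * Γ) * (Γ' * W) = W' * (Γ * Γ') * W := by simp only [mul_assoc]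
      _ = 1 := by rw [g1, mul_one, h4]
  rw [hP, hP', blk_mul, ← blk_one] at i1 i2
  obtain ⟨j1, -, -⟩ := blk_inj i1
  obtain ⟨j2, -, -⟩ := blk_inj i2
  have hWeq : W = blk (R * P) (R * Q1 + Q * P) (R * P) := by
    calc W = Γ * (Γ' * W) := by rw [← mul_assoc, g1, one_mul]
      _ = _ := by rw [hP, blk_mul]
  refine ⟨R * P, R * Q1 + Q * P, P' * R', hWeq, ?_, ?_⟩
  · calc R * P * (P' * R') = R * (P * P') * R' := by simp only [mul_assoc]
      _ = 1 := by rw [j1, mul_one, hR1]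
  · calc P' * R' * (R * P) = P' * (R' * R) * P := by simp only [mul_assoc]
      _ = 1 := by rw [hR2, mul_one, j2]

/-- the algebraic identity behind (I) -/
lemma JY_identity {E b a : ℂ} {A B Y : H →L[ℂ] H} (hB : B = A * Y - Y * A)
    (h1 : E • ((S - a • 1) * A) = (1 - b • S) * (A * S))
    (h2 : E • ((S - a • 1) * B + J * A) =
        (1 - b • S) * (A * J + B * S) - b • (J * (A * S))) :
    E • ((J + Y * S - S * Y) * A) =
      (1 - b • S) * (A * (J + Y * S - S * Y)) - b • ((J + Y * S - S * Y) * (A * S)) := by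
  subst hB
  have e1 : (E • ((S - a • 1) * A)) * Y = ((1 - b • S) * (A * S)) * Y := by rw [h1]
  have e2 : Y * (E • ((S - a • 1) * A)) = Y * ((1 - b • S) * (A * S)) := by rw [h1]
  rw [← sub_eq_zero] at e1 e2 h2 ⊢
  have key : E • ((J + Y * S - S * Y) * A) -
      ((1 - b • S) * (A * (J + Y * S - S * Y)) - b • ((J + Y * S - S * Y) * (A * S)))
      = (E • ((S - a • 1) * (A * Y - Y * A) + J * A) -
        ((1 - b • S) * (A * J + (A * Y - Y * A) * S) - b • (J * (A * S))))
        - ((E • ((S - a • 1) * A)) * Y - ((1 - b • S) * (A * S)) * Y)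
        + (Y * (E • ((S - a • 1) * A)) - Y * ((1 - b • S) * (A * S))) := by
    simp only [mul_sub, sub_mul, mul_add, add_mul, smul_mul_assoc, mul_smul_comm, mul_assoc,
      one_mul, mul_one, smul_sub, smul_add, smul_smul]
    module
  rw [key, e1, e2, h2]
  simp

lemma exists_theta : ∃ θ : ℝ, ∀ n : ℕ, 0 < n → Complex.exp ((θ : ℂ) * Complex.I) ^ n ≠ 1 := by
  refine ⟨2 * Real.pi * Real.sqrt 2, ?_⟩
  intro n hn h
  rw [← Complex.exp_nat_mul, Complex.exp_eq_one_iff] at h
  obtain ⟨m, hm⟩ := h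
  have h1 : (n : ℂ) * (Real.sqrt 2 : ℂ) = m := by
    have h2 : (2 * (Real.pi : ℂ) * Complex.I) ≠ 0 := by
      simp [Real.pi_ne_zero, Complex.I_ne_zero]
    apply mul_right_cancel₀ h2
    rw [← hm]
    push_cast
    ring
  have h3 : (n : ℝ) * Real.sqrt 2 = m := by exact_mod_cast h1
  have h4 : Irrational (Real.sqrt 2) := irrational_sqrt_two
  apply h4
  refine ⟨(m : ℚ) / n, ?_⟩
  have hn0 : (n : ℝ) ≠ 0 := by exact_mod_cast hn.ne'
  push_cast
  field_simp
  linarith

lemma partB0 {E a : ℂ} (ha : ‖a‖ < 1) (X : (K →L[ℂ] K)ˣ) {U : K →L[ℂ] K}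
    (hU : U ∈ unitary (K →L[ℂ] K))
    (h : E • (((X : K →L[ℂ] K) * T * ((X⁻¹ : (K →L[ℂ] K)ˣ) : K →L[ℂ] K) - a • (1 : K →L[ℂ] K)) *
                Ring.inverse ((1 : K →L[ℂ] K) - (starRingEnd ℂ a) •
                  ((X : K →L[ℂ] K) * T * ((X⁻¹ : (K →L[ℂ] K)ˣ) : K →L[ℂ] K))))
            = U * ((X : K →L[ℂ] K) * T * ((X⁻¹ : (K →L[ℂ] K)ˣ) : K →L[ℂ] K)) * star U) :
    ∃ W W' : K →L[ℂ] K, W * W' = 1 ∧ W' * W = 1 ∧ Rel E a W ∧
      ∀ x y, ⟪(X : K →L[ℂ] K) (W x), (X : K →L[ℂ] K) (W y)⟫_ℂ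
        = ⟪(X : K →L[ℂ] K) x, (X : K →L[ℂ] K) y⟫_ℂ := by
  set Xi : K →L[ℂ] K := ((X⁻¹ : (K →L[ℂ] K)ˣ) : K →L[ℂ] K) with hXi
  set X0 : K →L[ℂ] K := (X : K →L[ℂ] K) with hX0
  have hx1 : X0 * Xi = 1 := X.mul_inv
  have hx2 : Xi * X0 = 1 := X.inv_mul
  obtain ⟨hu1, hu2⟩ := Unitary.mem_iff.1 hU
  set M : K →L[ℂ] K := X0 * T * Xi with hM
  have hN : 1 - conj a • M = X0 * (1 - conj a • T) * Xi := by
    rw [mul_sub, sub_mul, mul_one, hx1, mul_smul_comm, smul_mul_assoc]
  have hNu : IsUnit (1 - conj a • M) := by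
    rw [hN]
    exact (X.isUnit.mul (isUnit_one_sub_T ha)).mul (X⁻¹).isUnit
  have hcomm : (1 - conj a • M) * (M - a • 1) = (M - a • 1) * (1 - conj a • M) := by
    simp only [mul_sub, sub_mul, mul_one, one_mul, smul_mul_assoc, mul_smul_comm]
    module
  have eq1 : E • (M - a • (1 : K →L[ℂ] K)) = (1 - conj a • M) * (U * M * star U) := by
    rw [← h, mul_smul_comm, ← mul_assoc, hcomm, mul_assoc, Ring.mul_inverse_cancel _ hNu, mul_one]
  refine ⟨Xi * U * X0, Xi * star U * X0, ?_, ?_, ?_, ?_⟩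
  · calc Xi * U * X0 * (Xi * star U * X0) = Xi * (U * ((X0 * Xi) * star U)) * X0 := by
          simp only [mul_assoc]
      _ = 1 := by rw [hx1, one_mul, hu2, mul_one, hx2]
  · calc Xi * star U * X0 * (Xi * U * X0) = Xi * (star U * ((X0 * Xi) * U)) * X0 := by
          simp only [mul_assoc]
      _ = 1 := by rw [hx1, one_mul, hu1, mul_one, hx2]
  · unfold Rel
    have e1 : T - a • (1 : K →L[ℂ] K) = Xi * (M - a • 1) * X0 := by
      rw [mul_sub, sub_mul, mul_smul_comm, smul_mul_assoc, mul_one, hx2, hM]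
      congr 1
      calc T = (Xi * X0) * T * (Xi * X0) := by rw [hx2, one_mul, mul_one]
        _ = _ := by simp only [mul_assoc]
    have e2 : 1 - conj a • T = Xi * (1 - conj a • M) * X0 := by
      rw [hN]
      calc 1 - conj a • T = (Xi * X0) * (1 - conj a • T) * (Xi * X0) := by
            rw [hx2, one_mul, mul_one]
        _ = _ := by simp only [mul_assoc]
    calc E • ((T - a • (1 : K →L[ℂ] K)) * (Xi * U * X0))
        = E • (Xi * (M - a • 1) * (X0 * Xi) * U * X0) := by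
          rw [e1]; simp only [mul_assoc]
      _ = Xi * (E • (M - a • 1)) * U * X0 := by
          rw [hx1, mul_one, mul_smul_comm, smul_mul_assoc, smul_mul_assoc]
      _ = Xi * ((1 - conj a • M) * (U * M * star U)) * U * X0 := by rw [eq1]
      _ = Xi * (1 - conj a • M) * (U * M * (star U * U)) * X0 := by simp only [mul_assoc]
      _ = Xi * (1 - conj a • M) * (U * M) * X0 := by rw [hu1, mul_one]
      _ = Xi * (1 - conj a • M) * (X0 * Xi) * (U * X0 * T * (Xi * X0)) := by
          rw [hx1, hx2, mul_one, mul_one, hM]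
          simp only [mul_assoc, hx2, mul_one]
      _ = (Xi * (1 - conj a • M) * X0) * (Xi * U * X0 * T) := by
          rw [hx2, mul_one]; simp only [mul_assoc]
      _ = (1 - conj a • T) * (Xi * U * X0 * T) := by rw [← e2]
  · intro x y
    have hXW : ∀ x, X0 ((Xi * U * X0) x) = U (X0 x) := by
      intro x
      have : X0 * (Xi * U * X0) = U * X0 := by
        calc X0 * (Xi * U * X0) = (X0 * Xi) * U * X0 := by simp only [mul_assoc]
          _ = U * X0 := by rw [hx1, one_mul]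
      exact congrArg (fun A : K →L[ℂ] K => A x) this
    rw [hXW, hXW]
    rw [← ContinuousLinearMap.adjoint_inner_right, ← ContinuousLinearMap.star_eq_adjoint]
    have : (star U) (U (X0 y)) = X0 y := congrArg (fun A : K →L[ℂ] K => A (X0 y)) hu1
    rw [this]

theorem partB
    (hA : ∀ (θ : ℝ) (a : ℂ), ‖a‖ < 1 → ∃ R R' Q : H →L[ℂ] H, R * R' = 1 ∧ R' * R = 1 ∧
      Rel (Complex.exp ((θ : ℂ) * Complex.I)) a (blk R Q R))
    (X : (K →L[ℂ] K)ˣ)
    (h : ∀ (θ : ℝ) (a : ℂ), ‖a‖ < 1 →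
        ∃ U ∈ unitary (K →L[ℂ] K), Complex.exp ((θ : ℂ) * Complex.I) •
              (((X : K →L[ℂ] K) * T * ((X⁻¹ : (K →L[ℂ] K)ˣ) : K →L[ℂ] K) - a • (1 : K →L[ℂ] K)) *
                Ring.inverse ((1 : K →L[ℂ] K) - (starRingEnd ℂ a) •
                  ((X : K →L[ℂ] K) * T * ((X⁻¹ : (K →L[ℂ] K)ˣ) : K →L[ℂ] K))))
            = U * ((X : K →L[ℂ] K) * T * ((X⁻¹ : (K →L[ℂ] K)ˣ) : K →L[ℂ] K)) * star U) :
    False := by
  set XI : H →L[ℂ] K := (X : K →L[ℂ] K).comp i1 with hXI
  set X2 : H →L[ℂ] K := (X : K →L[ℂ] K).comp i2 with hX2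
  set G : H →L[ℂ] H := (ContinuousLinearMap.adjoint XI).comp XI with hG
  set G2 : H →L[ℂ] H := (ContinuousLinearMap.adjoint XI).comp X2 with hG2
  have iG : ∀ x y, ⟪x, G y⟫_ℂ = ⟪XI x, XI y⟫_ℂ := by
    intro x y
    rw [hG, ContinuousLinearMap.comp_apply, ContinuousLinearMap.adjoint_inner_right]
  have iG2 : ∀ x y, ⟪x, G2 y⟫_ℂ = ⟪XI x, X2 y⟫_ℂ := by
    intro x y
    rw [hG2, ContinuousLinearMap.comp_apply, ContinuousLinearMap.adjoint_inner_right]
  -- `G` is invertible
  have hGu : IsUnit G := by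
    set c : ℝ := ‖((X⁻¹ : (K →L[ℂ] K)ˣ) : K →L[ℂ] K)‖ + 1 with hc
    have hc0 : 0 < c := by positivity
    have hle : ∀ x, ‖x‖ ≤ c * ‖XI x‖ := by
      intro x
      have h1 : ((X⁻¹ : (K →L[ℂ] K)ˣ) : K →L[ℂ] K) (XI x) = i1 x :=
        congrArg (fun A : K →L[ℂ] K => A (i1 x)) X.inv_mul
      calc ‖x‖ = ‖((X⁻¹ : (K →L[ℂ] K)ˣ) : K →L[ℂ] K) (XI x)‖ := by rw [h1, norm_i1]
        _ ≤ ‖((X⁻¹ : (K →L[ℂ] K)ˣ) : K →L[ℂ] K)‖ * ‖XI x‖ := ContinuousLinearMap.le_opNorm _ _
        _ ≤ c * ‖XI x‖ := by gcongr; linarith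
    have hcc : (0 : NNReal) < ⟨(c ^ 2)⁻¹, by positivity⟩ := by
      show (0 : ℝ) < (c ^ 2)⁻¹
      positivity
    apply ContinuousLinearMap.isUnit_of_forall_le_norm_inner_map G hcc
    intro x
    show ‖x‖ ^ 2 * (c ^ 2)⁻¹ ≤ ‖⟪G x, x⟫_ℂ‖
    have h1 : ‖⟪G x, x⟫_ℂ‖ = ‖XI x‖ ^ 2 := by
      rw [← inner_conj_symm, RCLike.norm_conj, iG, inner_self_eq_norm_sq_to_K]
      simp
    rw [h1, ← div_eq_mul_inv, div_le_iff₀ (by positivity)]
    calc ‖x‖ ^ 2 ≤ (c * ‖XI x‖) ^ 2 := by
          gcongr; exact hle x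
      _ = _ := by ring
  obtain ⟨Gu, hGu'⟩ := hGu
  set Gi : H →L[ℂ] H := ((Gu⁻¹ : (H →L[ℂ] H)ˣ) : H →L[ℂ] H) with hGi
  have hG1 : G * Gi = 1 := by rw [← hGu']; exact Gu.mul_inv
  have hG2' : Gi * G = 1 := by rw [← hGu']; exact Gu.inv_mul
  set Y : H →L[ℂ] H := Gi * G2 with hY
  have hGY : G * Y = G2 := by rw [hY, ← mul_assoc, hG1, one_mul]
  -- structure
  have struct : ∀ (θ : ℝ) (a : ℂ), ‖a‖ < 1 → ∃ A A' : H →L[ℂ] H, A * A' = 1 ∧ A' * A = 1 ∧
      star A * G * A = G ∧ Rel (Complex.exp ((θ : ℂ) * Complex.I)) a (blk A (A * Y - Y * A) A) := by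
    intro θ a ha
    obtain ⟨R, R', Q, hR1, hR2, hΓ⟩ := hA θ a ha
    obtain ⟨U, hU, hUe⟩ := h θ a ha
    obtain ⟨W, W', hW1, hW2, hWr, hWi⟩ := partB0 ha X hU hUe
    obtain ⟨A, B, A', hWb, hA1, hA2⟩ := intertwiner ha hR1 hR2 hΓ hW1 hW2 hWr
    have hWi1 : ∀ x, W (i1 x) = i1 (A x) := by
      intro x
      rw [hWb]
      apply K_ext
      · rw [p1_blk]; simp
      · rw [p2_blk]; simp
    have hWi2 : ∀ x, W (i2 x) = i1 (B x) + i2 (A x) := by
      intro x
      rw [hWb]
      apply K_ext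
      · rw [p1_blk]; simp
      · rw [p2_blk]; simp
    have hAG : star A * G * A = G := by
      ext1 y
      apply ext_inner_left ℂ
      intro x
      show ⟪x, (star A) (G (A y))⟫_ℂ = _
      rw [inner_star_right, iG, iG]
      have := hWi (i1 x) (i1 y)
      rw [hWi1, hWi1] at this
      exact this
    have hAG2 : star A * (G * B) + star A * (G2 * A) = G2 := by
      ext1 y
      apply ext_inner_left ℂ
      intro x
      show ⟪x, (star A) (G (B y)) + (star A) (G2 (A y))⟫_ℂ = _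
      rw [inner_add_right, inner_star_right, inner_star_right, iG, iG2, iG2]
      have := hWi (i1 x) (i2 y)
      rw [hWi1, hWi2, map_add, inner_add_right] at this
      exact this
    have hAG3 : star A * G = G * A' := by
      calc star A * G = star A * G * (A * A') := by rw [hA1, mul_one]
        _ = (star A * G * A) * A' := by simp only [mul_assoc]
        _ = G * A' := by rw [hAG]
    have hB : B = A * Y - Y * A := by
      have h1 : G * (A' * (B + Y * A)) = G * Y := by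
        calc G * (A' * (B + Y * A)) = (G * A') * B + (G * A') * Y * A := by
              simp only [mul_add, mul_assoc]
          _ = star A * (G * B) + star A * ((G * Y) * A) := by
              rw [← hAG3]; simp only [mul_assoc]
          _ = G * Y := by rw [hGY, hAG2]
      have h2 : A' * (B + Y * A) = Y := by
        calc A' * (B + Y * A) = (Gi * G) * (A' * (B + Y * A)) := by rw [hG2', one_mul]
          _ = Gi * (G * (A' * (B + Y * A))) := by simp only [mul_assoc]
          _ = (Gi * G) * Y := by rw [h1, mul_assoc]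
          _ = Y := by rw [hG2', one_mul]
      have h3 : B + Y * A = A * Y := by
        calc B + Y * A = (A * A') * (B + Y * A) := by rw [hA1, one_mul]
          _ = A * (A' * (B + Y * A)) := by simp only [mul_assoc]
          _ = A * Y := by rw [h2]
      rw [← h3]; abel
    refine ⟨A, A', hA1, hA2, hAG, ?_⟩
    rw [← hB, ← hWb]
    exact hWr
  set JY : H →L[ℂ] H := J + Y * S - S * Y with hJY
  -- zeroth coordinate
  have h0 : ∀ x, (JY x) 0 = 0 := by
    obtain ⟨θ, hθ⟩ := exists_theta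
    obtain ⟨A, A', hA1, hA2, hAG, hrel⟩ := struct θ 0 (by simp)
    set E := Complex.exp ((θ : ℂ) * Complex.I) with hE
    rw [rel_blk_iff] at hrel
    obtain ⟨r1, r2, -⟩ := hrel
    have r3 := JY_identity rfl r1 r2
    simp only [map_zero, zero_smul, sub_zero, one_mul] at r1 r3
    intro x
    refine step3 hG1 hG2' ?_ hA1 hA2 hAG hθ ?_ r1.symm r3 x
    · intro h0
      have h1 : ⟪Gi (e 0), G (Gi (e 0))⟫_ℂ = 0 := by
        have : G (Gi (e 0)) = e 0 := ap_congr hG1 (e 0)
        rw [this, inner_e_right, h0, map_zero]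
      rw [iG] at h1
      have h2 := inner_self_eq_zero.1 h1
      have h3 : i1 (Gi (e 0)) = 0 := by
        have : ((X⁻¹ : (K →L[ℂ] K)ˣ) : K →L[ℂ] K) (XI (Gi (e 0))) = i1 (Gi (e 0)) :=
          congrArg (fun A : K →L[ℂ] K => A (i1 (Gi (e 0)))) X.inv_mul
        rw [← this, h2, map_zero]
      have h4 : Gi (e 0) = 0 := by
        rw [← norm_eq_zero, ← norm_i1, h3, norm_zero]
      have h5 : (e 0 : H) = 0 := by
        have : G (Gi (e 0)) = e 0 := ap_congr hG1 (e 0)
        rw [← this, h4, map_zero]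
      have h6 : ‖(e 0 : H)‖ = 1 := orthonormal_e.1 0
      rw [h5, norm_zero] at h6
      exact zero_ne_one h6
    · rw [hE, ← Complex.exp_conj, ← Complex.exp_add]
      simp
  have hJ0 : ∀ x, JY x = 0 := by
    intro x
    apply eq_zero_of_ka
    intro z _ hz
    have hz' : ‖conj z‖ < 1 := by rwa [RCLike.norm_conj]
    obtain ⟨A, A', hA1, hA2, hAG, hrel⟩ := struct 0 (conj z) hz'
    rw [rel_blk_iff] at hrel
    obtain ⟨r1, r2, -⟩ := hrel
    have r3 := JY_identity rfl r1 r2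
    simp only [Complex.ofReal_zero, zero_mul, Complex.exp_zero, one_smul] at r1 r3
    have := step4 hz' hA1 r1 r3 h0 x
    rw [Complex.conj_conj] at this
    exact this
  have hYS : Y * S = S * Y + J * 0 - 1 * J := by
    have : J + Y * S - S * Y = 0 := by
      ext1 x
      exact hJ0 x
    have h1 : Y * S = S * Y - J := by
      have h2 : Y * S = (J + Y * S - S * Y) + (S * Y - J) := by abel
      rw [this, zero_add] at h2
      exact h2
    rw [h1]; simp
  have h01 : (0 : H →L[ℂ] H) = 1 := growth (by simp) (by simp) hYS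
  have h5 : (e 0 : H) = 0 := by
    have := ap_congr h01 (e 0)
    exact this.symm
  have h6 : ‖(e 0 : H)‖ = 1 := orthonormal_e.1 0
  rw [h5, norm_zero] at h6
  exact zero_ne_one h6

end Pool.Agent.MP908b95
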