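import Pool.Agent.MP908b95.Basic

/-!
# The Toeplitz operator with symbol `2 i arg (1 - ā ζ)`
-/

set_option autoImplicit false

noncomputable section

open scoped InnerProductSpace ComplexConjugate

namespace Pool.Agent.MP908b95

/-- coefficients of `log (1 - b z)` -/
def cf (b : ℂ) (j : ℕ) : ℂ := -(b ^ j) / j

lemma norm_cf_le (b : ℂ) (j : ℕ) : ‖cf b j‖ ≤ ‖b‖ ^ j := by
  unfold cf
  rw [norm_div, norm_neg, norm_pow, Complex.norm_natCast]
  cases j with
  | zero => simp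
  | succ j =>
    apply div_le_self (by positivity)
    push_cast
    linarith [j.cast_nonneg (α := ℝ)]

section alg
variable {A : Type} [NormedRing A] [NormedAlgebra ℂ A] [CompleteSpace A]

lemma summable_cf {b : ℂ} (hb : ‖b‖ < 1) {u : A} (hu : ∀ j, ‖u ^ j‖ ≤ 1) :
    Summable (fun j => cf b j • u ^ j) := by
  apply Summable.of_norm_bounded (summable_geometric_of_lt_one (norm_nonneg b) hb)
  intro j
  rw [norm_smul]
  calc ‖cf b j‖ * ‖u ^ j‖ ≤ ‖b‖ ^ j * 1 :=
        mul_le_mul (norm_cf_le b j) (hu j) (norm_nonneg _) (by positivity)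
    _ = _ := mul_one _

end alg

/-- uniform estimate for the Taylor polynomials of `log(1 - b z) - conj`. -/
lemma taylor_bound {b : ℂ} (hb : ‖b‖ < 1) : ∃ N : ℕ, ∀ n ≥ N, ∀ z : ℂ, ‖z‖ ≤ 1 →
    ‖(∑ j ∈ Finset.range (n + 1), cf b j * z ^ j) -
      conj (∑ j ∈ Finset.range (n + 1), cf b j * z ^ j)‖ ≤ Real.pi + 2 := by
  have hlim : Filter.Tendsto (fun n : ℕ => ‖b‖ ^ (n + 1) * (1 - ‖b‖)⁻¹) Filter.atTop (nhds 0) := by
    have := (tendsto_pow_atTop_nhds_zero_of_lt_one (norm_nonneg b) hb).comp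
      (Filter.tendsto_add_atTop_nat 1)
    simpa using this.mul_const (1 - ‖b‖)⁻¹
  obtain ⟨N, hN⟩ := Filter.eventually_atTop.1 (hlim.eventually_le_const zero_lt_one)
  refine ⟨N, fun n hn z hz => ?_⟩
  set w : ℂ := -(b * z) with hw
  have hwn : ‖w‖ ≤ ‖b‖ := by
    rw [hw, norm_neg, norm_mul]
    calc ‖b‖ * ‖z‖ ≤ ‖b‖ * 1 := by gcongr
      _ = _ := mul_one _
  have hw1 : ‖w‖ < 1 := lt_of_le_of_lt hwn hb
  have hsum : (∑ j ∈ Finset.range (n + 1), cf b j * z ^ j) = Complex.logTaylor (n + 1) w := by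
    unfold Complex.logTaylor
    apply Finset.sum_congr rfl
    intro j _
    unfold cf
    rw [hw, neg_pow (b * z), mul_pow, pow_succ]
    have h1 : ((-1 : ℂ)) ^ j * (-1) ^ j = 1 := by rw [← mul_pow]; simp
    linear_combination (b ^ j * z ^ j / j) * h1
  rw [hsum]
  set L := Complex.logTaylor (n + 1) w with hL
  have h1 : ‖Complex.log (1 + w) - L‖ ≤ 1 := by
    refine (Complex.norm_log_sub_logTaylor_le n hw1).trans ?_
    have h2 : ‖w‖ ^ (n + 1) * (1 - ‖w‖)⁻¹ ≤ ‖b‖ ^ (n + 1) * (1 - ‖b‖)⁻¹ := by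
      gcongr
    have h3 : ‖w‖ ^ (n + 1) * (1 - ‖w‖)⁻¹ / (n + 1) ≤ ‖w‖ ^ (n + 1) * (1 - ‖w‖)⁻¹ := by
      apply div_le_self
      · have : 0 ≤ (1 - ‖w‖)⁻¹ := by
          apply inv_nonneg.2; linarith
        positivity
      · linarith [n.cast_nonneg (α := ℝ)]
    exact h3.trans (h2.trans (hN n hn))
  have h2 : ‖Complex.log (1 + w) - conj (Complex.log (1 + w))‖ ≤ Real.pi := by
    rw [Complex.sub_conj, Complex.log_im]
    rw [norm_mul, Complex.norm_I, mul_one, Complex.norm_real, Real.norm_eq_abs, abs_mul, abs_two]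
    have hre : 0 ≤ (1 + w).re := by
      have := Complex.abs_re_le_norm w
      rw [Complex.add_re, Complex.one_re]
      have h4 := abs_le.1 (this.trans hw1.le)
      linarith [h4.1]
    have h5 := Complex.abs_arg_le_pi_div_two_iff.2 hre
    linarith
  have h3 : L - conj L = (Complex.log (1 + w) - conj (Complex.log (1 + w))) -
      (Complex.log (1 + w) - L) + conj (Complex.log (1 + w) - L) := by
    rw [map_sub]; ring
  rw [h3]
  calc _ ≤ ‖(Complex.log (1 + w) - conj (Complex.log (1 + w))) - (Complex.log (1 + w) - L)‖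
        + ‖conj (Complex.log (1 + w) - L)‖ := norm_add_le _ _
    _ ≤ (‖Complex.log (1 + w) - conj (Complex.log (1 + w))‖ + ‖Complex.log (1 + w) - L‖)
        + ‖Complex.log (1 + w) - L‖ := by
        rw [RCLike.norm_conj]
        gcongr
        exact norm_sub_le _ _
    _ ≤ (Real.pi + 1) + 1 := by gcongr
    _ = _ := by ring

/-! ### the bilateral shift -/

abbrev HZ := L2 ℤ

lemma orthonormal_shiftZ (k : ℤ) : Orthonormal ℂ (fun n : ℤ => (e (n + k) : HZ)) := by
  rw [orthonormal_iff_ite]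
  intro i j
  rw [inner_e, e_apply]
  simp

def shZ (k : ℤ) : HZ →L[ℂ] HZ := (iso (orthonormal_shiftZ k)).toContinuousLinearMap

lemma shZ_e (k n : ℤ) : shZ k (e n) = e (n + k) := iso_e (orthonormal_shiftZ k) n

lemma norm_shZ (k : ℤ) (f : HZ) : ‖shZ k f‖ = ‖f‖ := (iso (orthonormal_shiftZ k)).norm_map f

lemma shZ_mul (k l : ℤ) : shZ k * shZ l = shZ (k + l) := by
  apply ext_e
  intro n
  show shZ k (shZ l (e n)) = _
  rw [shZ_e, shZ_e, shZ_e]
  congr 1; ring

lemma shZ_zero : shZ 0 = 1 := by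
  apply ext_e
  intro n
  rw [shZ_e, add_zero]
  rfl

lemma star_shZ (k : ℤ) : star (shZ k) = shZ (-k) := by
  have h1 : star (shZ k) * shZ k = 1 := by
    ext1 f
    apply ext_inner_left ℂ
    intro g
    show ⟪g, (star (shZ k)) (shZ k f)⟫_ℂ = ⟪g, f⟫_ℂ
    rw [ContinuousLinearMap.star_eq_adjoint, ContinuousLinearMap.adjoint_inner_right]
    exact (iso (orthonormal_shiftZ k)).inner_map_map g f
  calc star (shZ k) = star (shZ k) * (shZ k * shZ (-k)) := by
        rw [shZ_mul, add_neg_cancel, shZ_zero, mul_one]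
    _ = shZ (-k) := by rw [← mul_assoc, h1, one_mul]

instance : IsStarNormal (shZ 1) where
  star_comm_self := by
    show star (shZ 1) * shZ 1 = shZ 1 * star (shZ 1)
    rw [star_shZ, shZ_mul, shZ_mul]
    congr 1

lemma norm_shZ_pow_le (j : ℕ) : ‖(shZ 1) ^ j‖ ≤ 1 := by
  apply ContinuousLinearMap.opNorm_le_bound _ zero_le_one
  intro f
  rw [one_mul]
  apply le_of_eq
  induction j with
  | zero => simp
  | succ j ih =>
    rw [pow_succ']
    show ‖shZ 1 ((shZ 1 ^ j) f)‖ = ‖f‖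
    rw [norm_shZ, ih]

lemma partial_bound {b : ℂ} (hb : ‖b‖ < 1) : ∃ N : ℕ, ∀ n ≥ N,
    ‖(∑ j ∈ Finset.range (n + 1), cf b j • (shZ 1) ^ j) -
      star (∑ j ∈ Finset.range (n + 1), cf b j • (shZ 1) ^ j)‖ ≤ Real.pi + 2 := by
  obtain ⟨N, hN⟩ := taylor_bound hb
  refine ⟨N, fun n hn => ?_⟩
  have h1 : (∑ j ∈ Finset.range (n + 1), cf b j • (shZ 1) ^ j)
      = cfc (fun z : ℂ => ∑ j ∈ Finset.range (n + 1), cf b j * z ^ j) (shZ 1) := by
    have h2 : (fun z : ℂ => ∑ j ∈ Finset.range (n + 1), cf b j * z ^ j)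
        = ∑ j ∈ Finset.range (n + 1), fun z : ℂ => cf b j * z ^ j := by
      ext z
      simp
    rw [h2, cfc_sum (fun (j : ℕ) (z : ℂ) => cf b j * z ^ j) (shZ 1) _
      (fun j _ => by fun_prop)]
    apply Finset.sum_congr rfl
    intro j _
    rw [cfc_const_mul (cf b j) (fun z : ℂ => z ^ j) (shZ 1) (by fun_prop),
      cfc_pow_id (shZ 1) j]
  rw [h1, ← cfc_star, ← cfc_sub _ _ (shZ 1) (by fun_prop) (by fun_prop)]
  apply norm_cfc_le (by positivity)
  intro z hz
  have hz1 : ‖z‖ ≤ 1 := by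
    have h3 := spectrum.norm_le_norm_mul_of_mem hz
    have h4 := norm_shZ_pow_le 1
    have h5 := norm_shZ_pow_le 0
    rw [pow_one] at h4
    rw [pow_zero] at h5
    refine h3.trans ?_
    calc ‖shZ 1‖ * ‖(1 : HZ →L[ℂ] HZ)‖ ≤ 1 * 1 := by gcongr
      _ = 1 := mul_one _
  exact hN n hn z hz1

/-- operator `log (1 - b U)` -/
def LZ (b : ℂ) : HZ →L[ℂ] HZ := ∑' j : ℕ, cf b j • (shZ 1) ^ j

lemma norm_LZ_sub_star {b : ℂ} (hb : ‖b‖ < 1) : ‖LZ b - star (LZ b)‖ ≤ Real.pi + 2 := by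
  obtain ⟨N, hN⟩ := partial_bound hb
  have hs := (summable_cf hb norm_shZ_pow_le).hasSum.tendsto_sum_nat
  have hs1 := hs.comp (Filter.tendsto_add_atTop_nat 1)
  have hs2 : Filter.Tendsto (fun n : ℕ => ‖(∑ j ∈ Finset.range (n + 1), cf b j • (shZ 1) ^ j) -
      star (∑ j ∈ Finset.range (n + 1), cf b j • (shZ 1) ^ j)‖) Filter.atTop
      (nhds ‖LZ b - star (LZ b)‖) := by
    apply Filter.Tendsto.norm
    exact hs1.sub ((continuous_star.tendsto _).comp hs1)
  apply le_of_tendsto hs2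
  rw [Filter.eventually_atTop]
  exact ⟨N, hN⟩

/-! ### compression to `ℓ²(ℕ)` -/

lemma orthonormal_emb : Orthonormal ℂ (fun n : ℕ => (e (n : ℤ) : HZ)) := by
  rw [orthonormal_iff_ite]
  intro i j
  rw [inner_e, e_apply]
  simp

def V : H →L[ℂ] HZ := (iso orthonormal_emb).toContinuousLinearMap

lemma V_e (n : ℕ) : V (e n) = e (n : ℤ) := iso_e orthonormal_emb n

lemma norm_V (f : H) : ‖V f‖ = ‖f‖ := (iso orthonormal_emb).norm_map f

lemma inner_V (f g : H) : ⟪V f, V g⟫_ℂ = ⟪f, g⟫_ℂ := (iso orthonormal_emb).inner_map_map f g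

lemma V_S (f : H) : V (S f) = shZ 1 (V f) := by
  have : V.comp S = (shZ 1).comp V := by
    apply ext_e
    intro n
    show V (S (e n)) = shZ 1 (V (e n))
    rw [S_e, V_e, V_e, shZ_e]
    push_cast
    rfl
  exact congrArg (fun A : H →L[ℂ] HZ => A f) this

lemma V_S_pow (j : ℕ) (f : H) : V ((S ^ j) f) = ((shZ 1) ^ j) (V f) := by
  induction j with
  | zero => simp
  | succ j ih =>
    rw [pow_succ', ap_mul, V_S, ih, pow_succ']
    rfl

lemma norm_S_pow_le (j : ℕ) : ‖S ^ j‖ ≤ 1 := by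
  apply ContinuousLinearMap.opNorm_le_bound _ zero_le_one
  intro f
  rw [one_mul, norm_S_pow]

/-- operator `log (1 - b S)` -/
def LN (b : ℂ) : H →L[ℂ] H := ∑' j : ℕ, cf b j • S ^ j

lemma hasSum_LN {b : ℂ} (hb : ‖b‖ < 1) : HasSum (fun j : ℕ => cf b j • S ^ j) (LN b) :=
  (summable_cf hb norm_S_pow_le).hasSum

lemma hasSum_LZ {b : ℂ} (hb : ‖b‖ < 1) : HasSum (fun j : ℕ => cf b j • (shZ 1) ^ j) (LZ b) :=
  (summable_cf hb norm_shZ_pow_le).hasSum

lemma V_LN {b : ℂ} (hb : ‖b‖ < 1) (f : H) : V (LN b f) = LZ b (V f) := by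
  have h1 : HasSum (fun j : ℕ => V ((cf b j • S ^ j) f)) (V (LN b f)) :=
    ((hasSum_LN hb).mapL (ContinuousLinearMap.apply ℂ H f)).mapL V
  have h2 : HasSum (fun j : ℕ => (cf b j • (shZ 1) ^ j) (V f)) (LZ b (V f)) :=
    (hasSum_LZ hb).mapL (ContinuousLinearMap.apply ℂ HZ (V f))
  have h3 : (fun j : ℕ => V ((cf b j • S ^ j) f)) = (fun j : ℕ => (cf b j • (shZ 1) ^ j) (V f)) := by
    ext1 j
    show V (cf b j • (S ^ j) f) = cf b j • ((shZ 1) ^ j) (V f)
    rw [map_smul, V_S_pow]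
  rw [h3] at h1
  exact h1.unique h2

/-- The uniformly bounded Toeplitz operator. -/
def Yop (b : ℂ) : H →L[ℂ] H := LN b - star (LN b)

lemma norm_Yop_le {b : ℂ} (hb : ‖b‖ < 1) : ‖Yop b‖ ≤ Real.pi + 2 := by
  have key : ∀ x y : H, ⟪x, Yop b y⟫_ℂ = ⟪V x, (LZ b - star (LZ b)) (V y)⟫_ℂ := by
    intro x y
    have h1 : (LZ b - star (LZ b)) (V y) = LZ b (V y) - (star (LZ b)) (V y) := rfl
    have h2 : Yop b y = LN b y - (star (LN b)) y := rfl
    have h3 : ⟪V x, (star (LZ b)) (V y)⟫_ℂ = ⟪LZ b (V x), V y⟫_ℂ := by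
      rw [ContinuousLinearMap.star_eq_adjoint, ContinuousLinearMap.adjoint_inner_right]
    rw [h1, h2, inner_sub_right, inner_sub_right, inner_star_right, h3, ← V_LN hb, ← V_LN hb,
      inner_V, inner_V]
  apply ContinuousLinearMap.opNorm_le_bound _ (by positivity)
  intro y
  have h1 : ‖Yop b y‖ ^ 2 ≤ ‖Yop b y‖ * ((Real.pi + 2) * ‖y‖) := by
    have h2 : ‖⟪Yop b y, Yop b y⟫_ℂ‖ = ‖Yop b y‖ ^ 2 := by
      rw [inner_self_eq_norm_sq_to_K]; simp
    rw [← h2, key]
    refine (norm_inner_le_norm _ _).trans ?_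
    rw [norm_V]
    gcongr
    refine ((LZ b - star (LZ b)).le_opNorm _).trans ?_
    rw [norm_V]
    gcongr
    exact norm_LZ_sub_star hb
  rcases eq_or_lt_of_le (norm_nonneg (Yop b y)) with h | h
  · rw [← h]; positivity
  · nlinarith

lemma LN_comm {b : ℂ} (hb : ‖b‖ < 1) : LN b * S = S * LN b := by
  have h1 := (hasSum_LN hb).mul_right S
  have h2 := (hasSum_LN hb).mul_left S
  have h3 : (fun j : ℕ => (cf b j • S ^ j) * S) = (fun j : ℕ => S * (cf b j • S ^ j)) := by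
    ext1 j
    rw [smul_mul_assoc, mul_smul_comm, ← pow_succ, ← pow_succ']
  rw [h3] at h1
  exact h1.unique h2

lemma star_S_pow_e (j m : ℕ) : ((star S) ^ j) (e m) = if j ≤ m then e (m - j) else 0 := by
  induction j with
  | zero => simp
  | succ j ih =>
    rw [pow_succ', ap_mul, ih]
    by_cases h : j ≤ m
    · rw [if_pos h]
      by_cases h2 : j + 1 ≤ m
      · rw [if_pos h2]
        obtain ⟨k, rfl⟩ : ∃ k, m = j + (k + 1) := ⟨m - j - 1, by omega⟩
        rw [show j + (k + 1) - j = k + 1 by omega, show j + (k + 1) - (j + 1) = k by omega,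
          star_S_e_succ]
      · rw [if_neg h2, show m - j = 0 by omega, star_S_e0]
    · rw [if_neg h, if_neg (by omega), map_zero]

lemma ka_apply {z : ℂ} (hz : ‖z‖ < 1) (n : ℕ) : (ka z) n = z ^ n := by
  induction n with
  | zero =>
    rw [ka_eq hz, lp.coeFn_add, Pi.add_apply, lp.coeFn_smul, Pi.smul_apply, S_zero, e_apply]
    simp
  | succ n ih =>
    rw [ka_eq hz, lp.coeFn_add, Pi.add_apply, lp.coeFn_smul, Pi.smul_apply, S_succ, e_apply, ih]
    simp [pow_succ']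

lemma star_LN_comm {b : ℂ} (hb : ‖b‖ < 1) (m : ℕ) :
    (star (LN b)) (S (e m)) - S ((star (LN b)) (e m)) = conj (cf b (m + 1)) • e 0 := by
  have hst : HasSum (fun j : ℕ => conj (cf b j) • (star S) ^ j) (star (LN b)) := by
    have h1 := (hasSum_LN hb).star
    have h2 : (fun j : ℕ => star (cf b j • S ^ j)) = (fun j : ℕ => conj (cf b j) • (star S) ^ j) := by
      ext1 j
      rw [star_smul, star_pow]
      rfl
    rw [h2] at h1
    exact h1
  have h1 : HasSum (fun j : ℕ => (conj (cf b j) • (star S) ^ j) (S (e m)))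
      ((star (LN b)) (S (e m))) := hst.mapL (ContinuousLinearMap.apply ℂ H (S (e m)))
  have h2 : HasSum (fun j : ℕ => S ((conj (cf b j) • (star S) ^ j) (e m)))
      (S ((star (LN b)) (e m))) :=
    (hst.mapL (ContinuousLinearMap.apply ℂ H (e m))).mapL S
  have h3 := h1.sub h2
  apply h3.unique
  have h4 : conj (cf b (m + 1)) • e 0 = (conj (cf b (m + 1)) • (star S) ^ (m + 1)) (S (e m))
      - S ((conj (cf b (m + 1)) • (star S) ^ (m + 1)) (e m)) := by
    show _ = conj (cf b (m + 1)) • ((star S) ^ (m + 1)) (S (e m))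
      - S (conj (cf b (m + 1)) • ((star S) ^ (m + 1)) (e m))
    rw [S_e, star_S_pow_e, star_S_pow_e, if_pos le_rfl, if_neg (by omega)]
    simp
  rw [h4]
  apply hasSum_single (m + 1)
  intro j hj
  show conj (cf b j) • ((star S) ^ j) (S (e m)) - S (conj (cf b j) • ((star S) ^ j) (e m)) = 0
  rw [map_smul, ← smul_sub, S_e, star_S_pow_e, star_S_pow_e]
  by_cases h5 : j ≤ m
  · rw [if_pos h5, if_pos (by omega), S_e, show m - j + 1 = m + 1 - j by omega]
    simp
  · rw [if_neg h5, if_neg (by omega)]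
    simp

/-- The commutator `[Y, S]` is the rank-one operator `f ↦ (J f)(a) e₀`. -/
theorem Yop_comm {a : ℂ} (ha : ‖a‖ < 1) (f : H) :
    Yop (conj a) (S f) - S (Yop (conj a) f) = ⟪ka (conj a), J f⟫_ℂ • e 0 := by
  have hca : ‖conj a‖ < 1 := by rwa [RCLike.norm_conj]
  have : Yop (conj a) * S - S * Yop (conj a) =
      (ContinuousLinearMap.toSpanSingleton ℂ (e 0 : H)).comp
        ((innerSL ℂ (ka (conj a))).comp J) := by
    apply ext_e
    intro m
    show Yop (conj a) (S (e m)) - S (Yop (conj a) (e m)) = ⟪ka (conj a), J (e m)⟫_ℂ • e 0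
    have h1 : Yop (conj a) (S (e m)) = LN (conj a) (S (e m)) - (star (LN (conj a))) (S (e m)) := rfl
    have h2 : Yop (conj a) (e m) = LN (conj a) (e m) - (star (LN (conj a))) (e m) := rfl
    have h3 : LN (conj a) (S (e m)) = S (LN (conj a) (e m)) := ap_congr (LN_comm hca) (e m)
    rw [h1, h2, h3, map_sub]
    have h4 := star_LN_comm hca m
    have h5 : S (LN (conj a) (e m)) - (star (LN (conj a))) (S (e m)) -
        (S (LN (conj a) (e m)) - S ((star (LN (conj a))) (e m)))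
        = -((star (LN (conj a))) (S (e m)) - S ((star (LN (conj a))) (e m))) := by abel
    rw [h5, h4, J_e, inner_smul_right, inner_e_right, ka_apply hca, ← neg_smul]
    congr 1
    unfold cf
    simp only [map_div₀, map_neg, map_pow, Complex.conj_conj, map_natCast]
    push_cast
    ring
  exact ap_congr this f

end Pool.Agent.MP908b95
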