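import Pool.Agent.MP908b95.Volt
import Pool.Agent.MP908b95.Toep
import Pool.Agent.MP908b95.PartB

/-!
# `T` has uniformly bounded intertwiners
-/

set_option autoImplicit false

noncomputable section

open scoped InnerProductSpace ComplexConjugate

namespace Pool.Agent.MP908b95

theorem partA {E a : ℂ} (ha : ‖a‖ < 1) (hE : conj E * E = 1) :
    ∃ R R' Q : H →L[ℂ] H, R * R' = 1 ∧ R' * R = 1 ∧ ‖R‖ ≤ 1 ∧ ‖R'‖ ≤ 1 ∧ ‖Q‖ ≤ Real.pi + 2 ∧
      Rel E a (blk R Q R) := by
  have hca : ‖conj a‖ < 1 := by rwa [RCLike.norm_conj]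
  obtain ⟨R, R', c, h1, h2, h3, h4, hR⟩ := exists_R ha hE
  set Y := Yop (conj a) with hY
  have hYn : ‖Y‖ ≤ Real.pi + 2 := norm_Yop_le hca
  have hRS : R * S = Wp E a * R := by
    apply ext_e
    intro n
    rw [ap_mul, ap_mul, S_e, hR, hR, pow_succ', ap_mul]
  have r1 : E • ((S - a • 1) * R) = (1 - conj a • S) * (R * S) := by
    rw [hRS, ← mul_assoc, mul_Wp ha, smul_mul_assoc]
  refine ⟨R, R', Y * R, h1, h2, h3, h4, ?_, ?_⟩
  · calc ‖Y * R‖ ≤ ‖Y‖ * ‖R‖ := norm_mul_le _ _
      _ ≤ (Real.pi + 2) * 1 := by gcongr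
      _ = _ := mul_one _
  · rw [rel_blk_iff]
    refine ⟨r1, ?_, r1⟩
    ext1 f
    have hRSf : R (S f) = Wp E a (R f) := ap_congr hRS f
    set r := R f with hr
    set w := Wp E a r with hw
    have hV := volterra_identity (E := E) ha hR f
    rw [← hr] at hV
    set g := Rz (conj a) r with hg
    have hcg := Yop_comm ha g
    rw [← hY] at hcg
    rw [← hcg] at hV
    -- `E (1 - |a|²) g = E r + ā w`
    have hgg : (E * (1 - conj a * a)) • g = E • r + conj a • w := by
      have h5 := ap_congr (one_add_Wp ha hE) r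
      have h6 : r + (conj a * conj E) • w = (1 - conj a * a) • g := h5
      rw [mul_smul, ← h6, smul_add, smul_smul]
      congr 2
      linear_combination (conj a) * hE
    have hww : w - conj a • S w = E • (S r - a • r) := ap_congr (mul_Wp ha) r
    -- expand
    have hV2 : (1 - conj a • S : H →L[ℂ] H) (R (J f)) =
        E • (J r - (Y (S r) - S (Y r))) + conj a • (J w - (Y (S w) - S (Y w))) := by
      rw [← hV]
      calc (E * (1 - conj a * a)) • (J g - (Y (S g) - S (Y g)))
          = J ((E * (1 - conj a * a)) • g) - (Y (S ((E * (1 - conj a * a)) • g))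
              - S (Y ((E * (1 - conj a * a)) • g))) := by
            simp only [map_smul, smul_sub]
        _ = _ := by
            rw [hgg]
            simp only [map_add, map_smul, smul_sub]
            abel
    show E • (S (Y r) - a • Y r + J r) =
      (1 - conj a • S : H →L[ℂ] H) (R (J f) + Y (R (S f))) - conj a • J (R (S f))
    rw [map_add, hV2, hRSf]
    have h7 : (1 - conj a • S : H →L[ℂ] H) (Y w) = Y w - conj a • S (Y w) := rfl
    have h8 : Y w = E • (Y (S r) - a • Y r) + conj a • Y (S w) := by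
      have := congrArg (fun x => Y x) hww
      simp only [map_sub, map_smul] at this
      rw [← this]; abel
    rw [h7]
    linear_combination (norm := module) -h8

end Pool.Agent.MP908b95
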