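import Pool.Agent.MP908b95.Basic

/-!
# The unitary `R_φ` intertwining `S` and `φ(S)`
-/

set_option autoImplicit false

noncomputable section

open scoped InnerProductSpace ComplexConjugate

namespace Pool.Agent.MP908b95

section
variable (E a : ℂ)

/-- `φ(S) = E (S - a) (1 - ā S)⁻¹` -/
def Wp : H →L[ℂ] H := E • ((S - a • 1) * Rz (conj a))

variable {E a}

lemma Wp_mul (ha : ‖a‖ < 1) : Wp E a * (1 - conj a • S) = E • (S - a • 1) := by
  have hca : ‖conj a‖ < 1 := by rwa [RCLike.norm_conj]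
  rw [Wp, smul_mul_assoc, mul_assoc, Rz_mul hca, mul_one]

lemma Wp_comm (ha : ‖a‖ < 1) : Wp E a * S = S * Wp E a := by
  have hca : ‖conj a‖ < 1 := by rwa [RCLike.norm_conj]
  rw [Wp, smul_mul_assoc, mul_assoc, Rz_comm hca, mul_smul_comm]
  simp only [sub_mul, mul_sub, smul_mul_assoc, mul_smul_comm, one_mul]

lemma mul_Wp (ha : ‖a‖ < 1) : (1 - conj a • S) * Wp E a = E • (S - a • 1) := by
  rw [← Wp_mul ha]
  simp only [sub_mul, mul_sub, one_mul, mul_one, smul_mul_assoc, mul_smul_comm, Wp_comm ha]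

/-- `1 + ā Ē W = (1 - |a|²) (1 - ā S)⁻¹` when `|E| = 1` -/
lemma one_add_Wp (ha : ‖a‖ < 1) (hE : conj E * E = 1) :
    1 + (conj a * conj E) • Wp E a = (1 - conj a * a) • Rz (conj a) := by
  have hca : ‖conj a‖ < 1 := by rwa [RCLike.norm_conj]
  have h : (1 - conj a • S) * (1 + (conj a * conj E) • Wp E a) = (1 - conj a * a) • 1 := by
    rw [mul_add, mul_one, mul_smul_comm, mul_Wp ha, smul_smul]
    have : conj a * conj E * E = conj a := by rw [mul_assoc, hE, mul_one]
    rw [this]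
    module
  calc 1 + (conj a * conj E) • Wp E a
      = (Rz (conj a) * (1 - conj a • S)) * (1 + (conj a * conj E) • Wp E a) := by
        rw [Rz_mul hca, one_mul]
    _ = Rz (conj a) * ((1 - conj a * a) • 1) := by rw [mul_assoc, h]
    _ = _ := by rw [mul_smul_comm, mul_one]

lemma inner_Wp (ha : ‖a‖ < 1) (hE : conj E * E = 1) (x y : H) :
    ⟪Wp E a x, Wp E a y⟫_ℂ = ⟪x, y⟫_ℂ := by
  have hca : ‖conj a‖ < 1 := by rwa [RCLike.norm_conj]
  have key : ∀ u v : H, ⟪S u - a • u, S v - a • v⟫_ℂ = ⟪u - conj a • S u, v - conj a • S v⟫_ℂ := by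
    intro u v
    simp only [inner_sub_left, inner_sub_right, inner_smul_left, inner_smul_right, inner_S,
      Complex.conj_conj]
    ring
  have hx : ∀ x : H, Wp E a x = E • (S (Rz (conj a) x) - a • Rz (conj a) x) := fun x => rfl
  have hx' : ∀ x : H, Rz (conj a) x - conj a • S (Rz (conj a) x) = x := by
    intro x
    have := ap_congr (mul_Rz hca) x
    exact this
  rw [hx, hx, inner_smul_left, inner_smul_right, ← mul_assoc, hE, one_mul, key, hx', hx']

lemma star_Wp_ka (ha : ‖a‖ < 1) (x : H) : ⟪ka (conj a), Wp E a x⟫_ℂ = 0 := by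
  have hca : ‖conj a‖ < 1 := by rwa [RCLike.norm_conj]
  have hx : Wp E a x = E • (S (Rz (conj a) x) - a • Rz (conj a) x) := rfl
  rw [hx, inner_smul_right, inner_sub_right, inner_smul_right, ← inner_star_left, star_S_ka hca,
    inner_smul_left]
  simp

lemma norm_ka_sq (ha : ‖a‖ < 1) : ⟪ka (conj a), ka (conj a)⟫_ℂ * (1 - conj a * a) = 1 := by
  have hca : ‖conj a‖ < 1 := by rwa [RCLike.norm_conj]
  have h1 : ⟪ka (conj a), e 0⟫_ℂ = 1 := by
    rw [inner_e_right]
    have h2 : (ka (conj a)) 0 = 1 := by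
      rw [ka_eq hca, lp.coeFn_add, Pi.add_apply, lp.coeFn_smul, Pi.smul_apply, S_zero, e_apply]
      simp
    rw [h2]; simp
  have h2 : ⟪ka (conj a), ka (conj a)⟫_ℂ =
      ⟪ka (conj a), e 0⟫_ℂ + conj a * (a * ⟪ka (conj a), ka (conj a)⟫_ℂ) := by
    have h3 : ⟪ka (conj a), S (ka (conj a))⟫_ℂ = a * ⟪ka (conj a), ka (conj a)⟫_ℂ := by
      rw [← inner_star_left, star_S_ka hca, inner_smul_left]
      simp
    have h4 : ⟪ka (conj a), ka (conj a)⟫_ℂ = ⟪ka (conj a), e 0 + conj a • S (ka (conj a))⟫_ℂ := by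
      rw [← ka_eq hca]
    rw [← h3, ← inner_smul_right, ← inner_add_right]
    exact h4
  rw [h1] at h2
  linear_combination h2

end

/-- Existence of the unitary `R`. -/
theorem exists_R {E a : ℂ} (ha : ‖a‖ < 1) (hE : conj E * E = 1) :
    ∃ (R R' : H →L[ℂ] H) (c : ℂ), R * R' = 1 ∧ R' * R = 1 ∧ ‖R‖ ≤ 1 ∧ ‖R'‖ ≤ 1 ∧
      (∀ n : ℕ, R (e n) = (Wp E a ^ n) (c • ka (conj a))) := by
  have hca : ‖conj a‖ < 1 := by rwa [RCLike.norm_conj]
  set W := Wp E a with hW
  -- normalisation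
  have hpos : 0 < ‖ka (conj a)‖ := by
    rw [norm_pos_iff]
    intro h
    have := norm_ka_sq ha
    rw [h] at this
    simp at this
  set c : ℂ := ((‖ka (conj a)‖ : ℝ) : ℂ)⁻¹ with hc
  have hc0 : c ≠ 0 := by
    rw [hc]; apply inv_ne_zero; exact_mod_cast hpos.ne'
  set v : ℕ → H := fun n => (W ^ n) (c • ka (conj a)) with hv
  have hWn : ∀ n x y, ⟪(W ^ n) x, (W ^ n) y⟫_ℂ = ⟪x, y⟫_ℂ := by
    intro n
    induction n with
    | zero => intro x y; simp
    | succ n ih =>
      intro x y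
      rw [pow_succ', ap_mul, ap_mul, inner_Wp ha hE, ih]
  have hv0 : ‖c • ka (conj a)‖ = 1 := by
    rw [norm_smul, hc, norm_inv, Complex.norm_real, norm_norm, inv_mul_cancel₀ hpos.ne']
  have horth0 : ∀ m x, ⟪c • ka (conj a), (W ^ (m + 1)) x⟫_ℂ = 0 := by
    intro m x
    rw [pow_succ', ap_mul, inner_smul_left, star_Wp_ka ha, mul_zero]
  have hvo : Orthonormal ℂ v := by
    constructor
    · intro n
      have h1 := hWn n (c • ka (conj a)) (c • ka (conj a))
      have h2 : ‖(W ^ n) (c • ka (conj a))‖ ^ 2 = ‖c • ka (conj a)‖ ^ 2 := by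
        rw [inner_self_eq_norm_sq_to_K, inner_self_eq_norm_sq_to_K] at h1
        exact_mod_cast h1
      rw [hv0] at h2
      show ‖(W ^ n) (c • ka (conj a))‖ = 1
      have h3 := norm_nonneg ((W ^ n) (c • ka (conj a)))
      nlinarith
    · have hlt : ∀ i j : ℕ, i < j → ⟪v i, v j⟫_ℂ = 0 := by
        intro i j hij
        obtain ⟨m, rfl⟩ : ∃ m, j = i + (m + 1) := ⟨j - i - 1, by omega⟩
        show ⟪(W ^ i) (c • ka (conj a)), (W ^ (i + (m + 1))) (c • ka (conj a))⟫_ℂ = 0
        rw [pow_add, ap_mul, hWn, horth0]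
      intro i j hij
      rcases lt_or_gt_of_ne hij with h | h
      · exact hlt i j h
      · show ⟪v i, v j⟫_ℂ = 0
        rw [← inner_conj_symm, hlt j i h, map_zero]
  set Ri : H →ₗᵢ[ℂ] H := iso hvo with hRi
  set R : H →L[ℂ] H := Ri.toContinuousLinearMap with hR
  have hRe : ∀ n, R (e n) = v n := fun n => iso_e hvo n
  have hRS : R * S = W * R := by
    apply ext_e
    intro n
    rw [ap_mul, ap_mul, S_e, hRe, hRe]
    show (W ^ (n + 1)) _ = W ((W ^ n) _)
    rw [pow_succ', ap_mul]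
  -- surjectivity
  have hRR : star R * R = 1 := by
    ext1 x
    apply ext_inner_left ℂ
    intro y
    show ⟪y, (star R) (R x)⟫_ℂ = ⟪y, x⟫_ℂ
    rw [inner_star_right]
    exact Ri.inner_map_map y x
  set z' : ℂ := -(conj a * conj E) with hz'
  have hEn : ‖E‖ = 1 := by
    have h1 : ‖conj E * E‖ = 1 := by rw [hE]; simp
    rw [norm_mul, RCLike.norm_conj] at h1
    nlinarith [norm_nonneg E]
  have hz'n : ‖z'‖ < 1 := by
    rw [hz', norm_neg, norm_mul, RCLike.norm_conj, RCLike.norm_conj, hEn, mul_one]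
    exact ha
  have r1 : R * (1 - z' • S) = (1 - conj a * a) • (Rz (conj a) * R) := by
    have h1 : R * (1 - z' • S) = (1 + (conj a * conj E) • W) * R := by
      rw [hz', neg_smul, sub_neg_eq_add, mul_add, add_mul, mul_one, one_mul, mul_smul_comm,
        smul_mul_assoc, hRS]
    rw [h1, one_add_Wp ha hE, smul_mul_assoc]
  have r2 : (1 - conj a • S) * R = R * ((1 - conj a * a) • Rz z') := by
    calc (1 - conj a • S) * R = (1 - conj a • S) * (R * ((1 - z' • S) * Rz z')) := by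
          rw [mul_Rz hz'n, mul_one]
      _ = (1 - conj a • S) * ((R * (1 - z' • S)) * Rz z') := by simp only [mul_assoc]
      _ = (1 - conj a * a) • (((1 - conj a • S) * Rz (conj a)) * (R * Rz z')) := by
          rw [r1]; simp only [smul_mul_assoc, mul_smul_comm, mul_assoc]
      _ = R * ((1 - conj a * a) • Rz z') := by
          rw [mul_Rz hca, one_mul, mul_smul_comm]
  have r3 : S * R = R * (a • 1 + conj E • (S * ((1 - conj a * a) • Rz z'))) := by
    have h1 : S = a • 1 + conj E • (W * (1 - conj a • S)) := by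
      rw [hW, Wp_mul ha, smul_smul, hE, one_smul]
      abel
    calc S * R = (a • 1 + conj E • (W * (1 - conj a • S))) * R := by rw [← h1]
      _ = a • R + conj E • (W * ((1 - conj a • S) * R)) := by
          simp only [add_mul, smul_mul_assoc, one_mul, mul_assoc]
      _ = a • R + conj E • ((R * S) * ((1 - conj a * a) • Rz z')) := by
          rw [r2, hRS]; simp only [mul_assoc]
      _ = _ := by
          simp only [mul_add, mul_smul_comm, mul_one, mul_assoc]
  have hsurj : ∀ n : ℕ, ∃ x, R x = e n := by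
    intro n
    induction n with
    | zero =>
      refine ⟨c⁻¹ • ((1 - conj a * a) • Rz z' : H →L[ℂ] H) (e 0), ?_⟩
      have h1 := ap_congr r2 (e 0)
      have h2 : (R * ((1 - conj a * a) • Rz z')) (e 0)
          = R (((1 - conj a * a) • Rz z' : H →L[ℂ] H) (e 0)) := rfl
      rw [map_smul, ← h2, ← h1, ap_mul, hRe]
      have h3 : v 0 = c • ka (conj a) := by simp [hv]
      have h4 : (1 - conj a • S : H →L[ℂ] H) (ka (conj a)) = e 0 := ap_congr (mul_Rz hca) (e 0)
      rw [h3, map_smul, h4, smul_smul, inv_mul_cancel₀ hc0, one_smul]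
    | succ n ih =>
      obtain ⟨x, hx⟩ := ih
      refine ⟨(a • 1 + conj E • (S * ((1 - conj a * a) • Rz z')) : H →L[ℂ] H) x, ?_⟩
      rw [← ap_mul, ← r3, ap_mul, hx, S_e]
  have hRR' : R * star R = 1 := by
    apply ext_e
    intro n
    obtain ⟨x, hx⟩ := hsurj n
    have h1 : (star R) (R x) = x := ap_congr hRR x
    rw [ap_mul, ← hx, h1]
    rfl
  have hRn : ‖R‖ ≤ 1 := by
    apply ContinuousLinearMap.opNorm_le_bound _ zero_le_one
    intro f
    rw [one_mul]
    exact (Ri.norm_map f).le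
  refine ⟨R, star R, c, hRR', hRR, hRn, ?_, hRe⟩
  apply ContinuousLinearMap.opNorm_le_bound _ zero_le_one
  intro f
  have h1 : R ((star R) f) = f := ap_congr hRR' f
  have h2 : ‖R ((star R) f)‖ = ‖(star R) f‖ := Ri.norm_map _
  rw [one_mul, ← h2, h1]

end Pool.Agent.MP908b95
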