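import Pool.Agent.MP908b95.RPhi

/-!
# The change of variables identity `∫ φⁿ φ' = φⁿ⁺¹/(n+1)` in operator form
-/

set_option autoImplicit false

noncomputable section

open scoped InnerProductSpace ComplexConjugate

namespace Pool.Agent.MP908b95

open PowerSeries in
/-- Taylor series of a vector of the Hardy space -/
def ps (f : H) : PowerSeries ℂ := PowerSeries.mk (fun n => f n)

lemma coeff_ps (f : H) (n : ℕ) : PowerSeries.coeff n (ps f) = f n := by
  simp [ps]

lemma ps_inj {f g : H} (h : ps f = ps g) : f = g := by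
  ext n
  rw [← coeff_ps, h, coeff_ps]

lemma ps_add (f g : H) : ps (f + g) = ps f + ps g := by
  ext n; rw [map_add]; simp only [coeff_ps]; rfl

lemma ps_sub (f g : H) : ps (f - g) = ps f - ps g := by
  ext n; rw [map_sub]; simp only [coeff_ps]; rfl

lemma ps_smul (c : ℂ) (f : H) : ps (c • f) = PowerSeries.C c * ps f := by
  ext n; rw [PowerSeries.coeff_C_mul]; simp only [coeff_ps]; rfl

lemma ps_S (f : H) : ps (S f) = PowerSeries.X * ps f := by
  ext n
  cases n with
  | zero => rw [coeff_ps, S_zero, PowerSeries.coeff_zero_X_mul]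
  | succ n => rw [coeff_ps, S_succ, PowerSeries.coeff_succ_X_mul, coeff_ps]

lemma ps_e0 : ps (e 0) = 1 := by
  ext n
  rw [coeff_ps, e_apply, PowerSeries.coeff_one]

lemma deriv_ps_J (f : H) : PowerSeries.derivative ℂ (ps (J f)) = ps f := by
  ext n
  rw [PowerSeries.coeff_derivative, coeff_ps, coeff_ps, J_succ]
  have : (n : ℂ) + 1 ≠ 0 := by exact_mod_cast Nat.succ_ne_zero n
  field_simp

section
variable {E a : ℂ}

lemma ps_sub_smul (b : ℂ) (f : H) :
    ps (f - b • S f) = (1 - PowerSeries.C b * PowerSeries.X) * ps f := by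
  rw [ps_sub, ps_smul, ps_S]; ring

lemma one_sub_ne (b : ℂ) : (1 - PowerSeries.C b * PowerSeries.X : PowerSeries ℂ) ≠ 0 := by
  intro h
  have := congrArg (PowerSeries.coeff (R := ℂ) 0) h
  simp at this

lemma ps_Rz {b : ℂ} (hb : ‖b‖ < 1) (f : H) :
    (1 - PowerSeries.C b * PowerSeries.X) * ps (Rz b f) = ps f := by
  rw [← ps_sub_smul]
  congr 1
  exact ap_congr (mul_Rz hb) f

lemma ps_W (ha : ‖a‖ < 1) (f : H) :
    (1 - PowerSeries.C (conj a) * PowerSeries.X) * ps (Wp E a f)
      = PowerSeries.C E * (PowerSeries.X - PowerSeries.C a) * ps f := by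
  rw [← ps_sub_smul]
  have h : Wp E a f - conj a • S (Wp E a f) = E • (S f - a • f) := ap_congr (mul_Wp ha) f
  rw [h, ps_smul, ps_sub, ps_smul, ps_S]
  ring

lemma ps_W' (ha : ‖a‖ < 1) (f : H) : ps (Wp E a f) = ps (Wp E a (e 0)) * ps f := by
  apply mul_left_cancel₀ (one_sub_ne (conj a))
  rw [ps_W ha, ← mul_assoc, ps_W ha, ps_e0]
  ring

lemma ps_W_pow (ha : ‖a‖ < 1) (n : ℕ) (f : H) :
    ps ((Wp E a ^ n) f) = ps (Wp E a (e 0)) ^ n * ps f := by
  induction n with
  | zero => simp
  | succ n ih => rw [pow_succ', ap_mul, ps_W' ha, ih]; ring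

lemma deriv_phi (ha : ‖a‖ < 1) :
    PowerSeries.derivative ℂ (ps (Wp E a (e 0))) =
      PowerSeries.C (E * (1 - conj a * a)) * ps (Rz (conj a) (Rz (conj a) (e 0))) := by
  have hca : ‖conj a‖ < 1 := by rwa [RCLike.norm_conj]
  set φ := ps (Wp E a (e 0)) with hφ
  have h1 : (1 - PowerSeries.C (conj a) * PowerSeries.X) * φ
      = PowerSeries.C E * (PowerSeries.X - PowerSeries.C a) := by
    rw [hφ, ps_W ha, ps_e0, mul_one]
  have h2 := congrArg (PowerSeries.derivative ℂ) h1
  rw [Derivation.leibniz, Derivation.leibniz, map_sub, map_sub, Derivation.leibniz] at h2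
  simp only [PowerSeries.derivative_C, PowerSeries.derivative_X, PowerSeries.derivative_one,
    smul_eq_mul, mul_zero, mul_one, sub_zero, add_zero, zero_sub] at h2
  apply mul_left_cancel₀ (one_sub_ne (conj a))
  apply mul_left_cancel₀ (one_sub_ne (conj a))
  have h3 : (1 - PowerSeries.C (conj a) * PowerSeries.X) *
      ((1 - PowerSeries.C (conj a) * PowerSeries.X) *
        (PowerSeries.C (E * (1 - conj a * a)) * ps (Rz (conj a) (Rz (conj a) (e 0)))))
      = PowerSeries.C (E * (1 - conj a * a)) * ((1 - PowerSeries.C (conj a) * PowerSeries.X) *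
      ((1 - PowerSeries.C (conj a) * PowerSeries.X) * ps (Rz (conj a) (Rz (conj a) (e 0))))) := by
    ring
  rw [h3, ps_Rz hca, ps_Rz hca, ps_e0, mul_one]
  have h4 : (1 - PowerSeries.C (conj a) * PowerSeries.X) *
      ((1 - PowerSeries.C (conj a) * PowerSeries.X) * PowerSeries.derivative ℂ φ)
      = (1 - PowerSeries.C (conj a) * PowerSeries.X) * PowerSeries.C E
        + PowerSeries.C (conj a) * ((1 - PowerSeries.C (conj a) * PowerSeries.X) * φ) := by
    linear_combination (1 - PowerSeries.C (conj a) * PowerSeries.X) * h2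
  rw [h4, h1, map_mul, map_sub, map_mul, map_one]
  ring

/-- `J (E (1-|a|²) Wⁿ (1-āS)⁻² e₀) = (n+1)⁻¹ Wⁿ⁺¹ e₀ + const • e₀` -/
lemma J_phi (ha : ‖a‖ < 1) (n : ℕ) : ∃ d : ℂ,
    J ((E * (1 - conj a * a)) • (Wp E a ^ n) (Rz (conj a) (Rz (conj a) (e 0))))
      = ((n : ℂ) + 1)⁻¹ • (Wp E a ^ (n + 1)) (e 0) + d • e 0 := by
  set f := (E * (1 - conj a * a)) • (Wp E a ^ n) (Rz (conj a) (Rz (conj a) (e 0))) with hf
  set g := ((n : ℂ) + 1)⁻¹ • (Wp E a ^ (n + 1)) (e 0) with hg
  have hn : (n : ℂ) + 1 ≠ 0 := by exact_mod_cast Nat.succ_ne_zero n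
  have h1 : PowerSeries.derivative ℂ (ps g) = ps f := by
    rw [hg, ps_smul, ps_W_pow ha, ps_e0, mul_one, Derivation.leibniz, PowerSeries.derivative_C,
      smul_zero, add_zero, smul_eq_mul, PowerSeries.derivative_pow, deriv_phi ha, hf, ps_smul,
      ps_W_pow ha]
    have h2 : (PowerSeries.C ((n : ℂ) + 1)⁻¹ : PowerSeries ℂ) * ((n + 1 : ℕ) : PowerSeries ℂ) = 1 := by
      have : ((n + 1 : ℕ) : PowerSeries ℂ) = PowerSeries.C ((n : ℂ) + 1) := by
        push_cast; simp
      rw [this, ← map_mul, inv_mul_cancel₀ hn, map_one]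
    rw [Nat.add_sub_cancel]
    linear_combination (ps (Wp E a (e 0)) ^ n *
      (PowerSeries.C (E * (1 - conj a * a)) * ps (Rz (conj a) (Rz (conj a) (e 0))))) * h2
  refine ⟨(J f - g) 0, ?_⟩
  have h2 : ps (J f - g) = ps ((J f - g) 0 • e 0) := by
    apply PowerSeries.derivative.ext
    · rw [ps_sub, map_sub, deriv_ps_J, h1, sub_self, ps_smul, ps_e0, mul_one,
        PowerSeries.derivative_C]
    · rw [← PowerSeries.coeff_zero_eq_constantCoeff_apply,
        ← PowerSeries.coeff_zero_eq_constantCoeff_apply, coeff_ps, coeff_ps, lp.coeFn_smul,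
        Pi.smul_apply, e_apply]
      simp
  have h3 := ps_inj h2
  rw [← h3]; abel

/-- The change of variables identity. -/
theorem volterra_identity (ha : ‖a‖ < 1) {R : H →L[ℂ] H} {c : ℂ}
    (hR : ∀ n : ℕ, R (e n) = (Wp E a ^ n) (c • ka (conj a))) (f : H) :
    (E * (1 - conj a * a)) • (J (Rz (conj a) (R f)) -
        ⟪ka (conj a), J (Rz (conj a) (R f))⟫_ℂ • e 0)
      = (1 - conj a • S : H →L[ℂ] H) (R (J f)) := by
  have hca : ‖conj a‖ < 1 := by rwa [RCLike.norm_conj]
  -- turn into an operator identity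
  set L : H →L[ℂ] H := (E * (1 - conj a * a)) • (J * Rz (conj a) * R -
    ((ContinuousLinearMap.toSpanSingleton ℂ (e 0 : H)).comp
      ((innerSL ℂ (ka (conj a))).comp (J * Rz (conj a) * R)))) with hL
  have hLf : ∀ f, L f = (E * (1 - conj a * a)) • (J (Rz (conj a) (R f)) -
        ⟪ka (conj a), J (Rz (conj a) (R f))⟫_ℂ • e 0) := by
    intro f
    rw [hL]
    rfl
  rw [← hLf]
  have : L = (1 - conj a • S) * R * J := by
    apply ext_e
    intro n
    rw [hLf, hR]
    have hcomm : Rz (conj a) * Wp E a ^ n = Wp E a ^ n * Rz (conj a) := by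
      apply Commute.pow_right
      show Rz (conj a) * Wp E a = Wp E a * Rz (conj a)
      rw [Wp, mul_smul_comm, smul_mul_assoc, mul_assoc]
      congr 1
      have : Rz (conj a) * (S - a • 1) = (S - a • 1) * Rz (conj a) := by
        rw [mul_sub, sub_mul, Rz_comm hca, mul_smul_comm, smul_mul_assoc, one_mul, mul_one]
      rw [← mul_assoc, this]
      simp only [mul_assoc]
    have h1 : Rz (conj a) ((Wp E a ^ n) (c • ka (conj a)))
        = c • (Wp E a ^ n) (Rz (conj a) (Rz (conj a) (e 0))) := by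
      rw [map_smul, map_smul]
      have := ap_congr hcomm (ka (conj a))
      rw [ap_mul, ap_mul] at this
      rw [this]
      rfl
    rw [h1]
    obtain ⟨d, hd⟩ := J_phi (E := E) ha n
    rw [map_smul] at hd
    set u := J ((Wp E a ^ n) (Rz (conj a) (Rz (conj a) (e 0)))) with hu
    set s : ℂ := E * (1 - conj a * a) with hs
    rw [map_smul, ← hu, inner_smul_right]
    have hk0 : ⟪ka (conj a), e 0⟫_ℂ = 1 := by
      rw [inner_e_right]
      have h2 : (ka (conj a)) 0 = 1 := by
        rw [ka_eq hca, lp.coeFn_add, Pi.add_apply, lp.coeFn_smul, Pi.smul_apply, S_zero, e_apply]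
        simp
      rw [h2]; simp
    have hkd : s * ⟪ka (conj a), u⟫_ℂ = d := by
      rw [← inner_smul_right, hd, inner_add_right, inner_smul_right, inner_smul_right, hk0,
        pow_succ', ap_mul, star_Wp_ka ha]
      ring
    -- right-hand side
    have h3 : ((1 - conj a • S) * R * J) (e n)
        = (c * ((n : ℂ) + 1)⁻¹) • (Wp E a ^ (n + 1)) (e 0) := by
      have h4 : ((1 - conj a • S) * R * J) (e n) = (1 - conj a • S : H →L[ℂ] H) (R (J (e n))) := rfl
      rw [h4, J_e, map_smul, hR, map_smul, map_smul, map_smul, smul_smul]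
      have h5 : (1 - conj a • S : H →L[ℂ] H) ((Wp E a ^ (n + 1)) (ka (conj a)))
          = (Wp E a ^ (n + 1)) (e 0) := by
        have hc2 : (1 - conj a • S) * Wp E a ^ (n + 1) = Wp E a ^ (n + 1) * (1 - conj a • S) := by
          apply Commute.pow_right
          show (1 - conj a • S) * Wp E a = Wp E a * (1 - conj a • S)
          rw [mul_Wp ha, Wp_mul ha]
        have := ap_congr hc2 (ka (conj a))
        rw [ap_mul, ap_mul] at this
        rw [this]
        have h4 : (1 - conj a • S : H →L[ℂ] H) (ka (conj a)) = e 0 := ap_congr (mul_Rz hca) (e 0)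
        rw [h4]
      rw [h5]
      congr 1
      rw [one_div]; ring
    rw [h3]
    calc s • (c • u - (c * ⟪ka (conj a), u⟫_ℂ) • e 0)
        = c • (s • u - (s * ⟪ka (conj a), u⟫_ℂ) • e 0) := by
          simp only [smul_sub, smul_smul]
          congr 1
          · rw [mul_comm]
          · congr 1; ring
      _ = c • (((n : ℂ) + 1)⁻¹ • (Wp E a ^ (n + 1)) (e 0)) := by
          rw [hkd, hd, add_sub_cancel_right]
      _ = _ := by rw [smul_smul]
  rw [this]
  rfl

end

end Pool.Agent.MP908b95
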